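import Mathlib

/-!
# Labelled Markov processes, zigzag morphisms and bisimilarity
-/

open MeasureTheory

universe u v w

namespace Pool.Agent.Helper90.Lmp

/-- A labelled Markov process with label set `L` on the measurable space `S`: a subprobability
kernel for each label. -/
structure LMP (L : Type v) (S : Type u) [MeasurableSpace S] where
  τ : L → ProbabilityTheory.Kernel S S
  le_one : ∀ a s, τ a s Set.univ ≤ 1

/-- Zigzag morphisms. -/
def IsZigzag {L : Type v} {S : Type u} {S' : Type w} [MeasurableSpace S] [MeasurableSpace S']
    (P : LMP L S) (P' : LMP L S') (f : S → S') : Prop :=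
  Measurable f ∧ ∀ a s A, MeasurableSet A → P'.τ a (f s) A = P.τ a s (f ⁻¹' A)

end Pool.Agent.Helper90.Lmp
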