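import Mathlib

/-!
# The two-valued measure of a countably complete filter
-/

open Set Filter MeasureTheory
open scoped ENNReal

namespace Pool.Agent.Helper90.Lmp

variable {A : Type*}

/-- The sets decided by a countably complete filter. -/
@[reducible]
def filterSpace (f : Filter A) [CountableInterFilter f] : MeasurableSpace A where
  MeasurableSet' E := E ∈ f ∨ Eᶜ ∈ f
  measurableSet_empty := Or.inr (by simp)
  measurableSet_compl E h := by
    rw [compl_compl]
    exact h.symm
  measurableSet_iUnion E h := by
    by_cases h1 : ∃ n, E n ∈ f
    · obtain ⟨n, hn⟩ := h1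
      exact Or.inl (mem_of_superset hn (subset_iUnion E n))
    · push Not at h1
      refine Or.inr ?_
      rw [compl_iUnion]
      exact countable_iInter_mem.2 fun n => (h n).resolve_left (h1 n)

theorem measurableSet_filterSpace {f : Filter A} [CountableInterFilter f] {E : Set A} :
    MeasurableSet[filterSpace f] E ↔ E ∈ f ∨ Eᶜ ∈ f := Iff.rfl

open Classical in
/-- The two-valued measure of a countably complete proper filter. -/
noncomputable def filterMeasure (f : Filter A) [CountableInterFilter f] [NeBot f] :
    @Measure A (filterSpace f) :=
  letI := filterSpace f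
  Measure.ofMeasurable (fun E _ => if E ∈ f then 1 else 0)
    (by simp [empty_notMem f])
    (by
      intro E hE hd
      by_cases h1 : ∃ n, E n ∈ f
      · obtain ⟨n, hn⟩ := h1
        rw [if_pos (mem_of_superset hn (subset_iUnion E n)), tsum_eq_single n, if_pos hn]
        intro m hm
        refine if_neg fun hm' => ?_
        have := inter_mem hn hm'
        rw [(hd hm.symm).inter_eq] at this
        exact empty_notMem f this
      · push Not at h1
        have h2 : (⋃ n, E n) ∉ f := by
          intro h2
          have h3 : (⋃ n, E n)ᶜ ∈ f := by
            rw [compl_iUnion]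
            exact countable_iInter_mem.2 fun n => ((hE n : E n ∈ f ∨ (E n)ᶜ ∈ f)).resolve_left (h1 n)
          have := inter_mem h2 h3
          rw [inter_compl_self] at this
          exact empty_notMem f this
        rw [if_neg h2]
        simp [h1])

open Classical in
theorem filterMeasure_apply {f : Filter A} [CountableInterFilter f] [NeBot f] {E : Set A}
    (hE : E ∈ f ∨ Eᶜ ∈ f) : filterMeasure f E = if E ∈ f then 1 else 0 := by
  let _ := filterSpace f
  exact Measure.ofMeasurable_apply E hE

theorem filterMeasure_of_mem {f : Filter A} [CountableInterFilter f] [NeBot f] {E : Set A}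
    (hE : E ∈ f) : filterMeasure f E = 1 := by
  rw [filterMeasure_apply (Or.inl hE), if_pos hE]

theorem filterMeasure_of_compl_mem {f : Filter A} [CountableInterFilter f] [NeBot f] {E : Set A}
    (hE : Eᶜ ∈ f) : filterMeasure f E = 0 := by
  rw [filterMeasure_apply (Or.inr hE), if_neg]
  intro h
  have := inter_mem h hE
  rw [inter_compl_self] at this
  exact empty_notMem f this

theorem filterMeasure_univ {f : Filter A} [CountableInterFilter f] [NeBot f] :
    filterMeasure f univ = 1 := filterMeasure_of_mem univ_mem

end Pool.Agent.Helper90.Lmp
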