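import Pool.Agent.Helper90.Lmp.Tree

/-!
# The probability space of eventually constant block sequences
-/

open Cardinal Set Filter MeasureTheory
open scoped ENNReal

namespace Pool.Agent.Helper90.Lmp

/-- The value space of a block. -/
abbrev Blk : Type := N → Bool

/-- A fair coin. -/
noncomputable def coin : Measure Bool := (2⁻¹ : ℝ≥0∞) • (Measure.dirac true + Measure.dirac false)

theorem coin_apply (s : Set Bool) : coin s = 2⁻¹ * (s.indicator 1 true + s.indicator 1 false) := by
  rw [coin, Measure.smul_apply, Measure.add_apply, Measure.dirac_apply, Measure.dirac_apply]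
  rfl

instance : IsProbabilityMeasure coin := ⟨by
  rw [coin_apply]
  simp only [indicator_univ, Pi.one_apply]
  rw [one_add_one_eq_two]
  exact ENNReal.inv_mul_cancel (by simp) (by simp)⟩

theorem coin_singleton (b : Bool) : coin {b} = 2⁻¹ := by
  rw [coin_apply]
  cases b <;> simp

theorem coin_map_xor (c : Bool) : coin.map (fun x => xor x c) = coin := by
  rw [coin, Measure.map_smul, Measure.map_add _ _ (measurable_of_countable _),
    Measure.map_dirac, Measure.map_dirac]
  cases c
  · rfl
  · simp only [Bool.xor_true, Bool.not_true, Bool.not_false]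
    rw [add_comm]

/-- The uniform measure on blocks. -/
noncomputable def lam0 : Measure Blk := Measure.infinitePi (fun _ : N => coin)

instance : IsProbabilityMeasure lam0 := by unfold lam0; infer_instance

/-- The uniform measure on families of blocks. -/
noncomputable def lam : Measure (I → Blk) := Measure.infinitePi (fun _ : I => lam0)

instance : IsProbabilityMeasure lam := by unfold lam; infer_instance

/-- Adding `c` to a block. -/
def xorBlk (c g : Blk) : Blk := fun n => xor (g n) (c n)

theorem measurable_xorBlk (c : Blk) : Measurable (xorBlk c) :=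
  measurable_pi_lambda _ fun n =>
    (measurable_of_countable (fun x : Bool => xor x (c n))).comp (measurable_pi_apply n)

theorem xorBlk_xorBlk (c g : Blk) : xorBlk c (xorBlk c g) = g := by
  funext n
  simp [xorBlk]

theorem lam0_map_xor (c : Blk) : lam0.map (xorBlk c) = lam0 := by
  unfold lam0 xorBlk
  rw [Measure.infinitePi_map_pi (μ := fun _ : N => coin) (f := fun n x => xor x (c n))
    (fun n => measurable_of_countable _)]
  congr 1
  funext n
  exact coin_map_xor (c n)

theorem lam0_bit (n : N) (b : Bool) : lam0 {g | g n = b} = 2⁻¹ := by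
  have h := (measurePreserving_eval_infinitePi (fun _ : N => coin) n).measure_preimage
    (MeasurableSet.singleton b).nullMeasurableSet
  rw [coin_singleton] at h
  exact h

/-- Adding `c` to all blocks except block `a`. -/
noncomputable def flipFun (c : Blk) (a : I) (u : I → Blk) : I → Blk := fun a' =>
  if a' = a then u a' else xorBlk c (u a')

theorem flipFun_same (c : Blk) (a : I) (u : I → Blk) : flipFun c a u a = u a := if_pos rfl

theorem flipFun_ne {c : Blk} {a a' : I} (h : a' ≠ a) (u : I → Blk) :
    flipFun c a u a' = xorBlk c (u a') := if_neg h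

theorem flipFun_flipFun (c : Blk) (a : I) (u : I → Blk) : flipFun c a (flipFun c a u) = u := by
  funext a'
  by_cases h : a' = a
  · subst h
    rw [flipFun_same, flipFun_same]
  · rw [flipFun_ne h, flipFun_ne h, xorBlk_xorBlk]

theorem measurable_flipFun (c : Blk) (a : I) : Measurable (flipFun c a) := by
  refine measurable_pi_lambda _ fun a' => ?_
  by_cases h : a' = a
  · subst h
    simp only [flipFun_same]
    exact measurable_pi_apply _
  · simp only [flipFun_ne h]
    exact (measurable_xorBlk c).comp (measurable_pi_apply a')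

theorem lam_map_flip (c : Blk) (a : I) : lam.map (flipFun c a) = lam := by
  have h1 : flipFun c a = fun (x : I → Blk) i => (if i = a then id else xorBlk c) (x i) := by
    funext x i
    by_cases h : i = a
    · subst h
      rw [flipFun_same, if_pos rfl]
      rfl
    · rw [flipFun_ne h, if_neg h]
  rw [h1]
  unfold lam
  rw [Measure.infinitePi_map_pi (μ := fun _ : I => lam0)
    (f := fun i => if i = a then id else xorBlk c)]
  · congr 1
    funext i
    by_cases h : i = a
    · rw [if_pos h, Measure.map_id]
    · rw [if_neg h, lam0_map_xor]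
  · intro i
    by_cases h : i = a
    · rw [if_pos h]; exact measurable_id
    · rw [if_neg h]; exact measurable_xorBlk c

/-- The flip as a measurable equivalence. -/
noncomputable def flipEquiv (c : Blk) (a : I) : (I → Blk) ≃ᵐ (I → Blk) where
  toFun := flipFun c a
  invFun := flipFun c a
  left_inv := flipFun_flipFun c a
  right_inv := flipFun_flipFun c a
  measurable_toFun := measurable_flipFun c a
  measurable_invFun := measurable_flipFun c a

theorem lam_preimage_flip (c : Blk) (a : I) (s : Set (I → Blk)) :
    lam (flipFun c a ⁻¹' s) = lam s :=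
  MeasurePreserving.measure_preimage_equiv (f := flipEquiv c a)
    ⟨measurable_flipFun c a, lam_map_flip c a⟩ s

theorem lam0_singleton (g : Blk) : lam0 {g} = 0 := by
  have h : ∀ k : ℕ, lam0 {g} ≤ (2⁻¹ : ℝ≥0∞) ^ k := by
    intro k
    let s : Finset N := (Finset.range k).map ⟨fun n => (0, n), fun a b h => by simpa using h⟩
    calc lam0 {g} ≤ lam0 (Set.pi s fun n => {g n}) := by
          refine measure_mono ?_
          rintro x rfl
          simp
      _ = ∏ i ∈ s, coin {g i} :=
          Measure.infinitePi_pi (μ := fun _ : N => coin) (fun i _ => MeasurableSet.singleton _)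
      _ = (2⁻¹ : ℝ≥0∞) ^ k := by
          simp only [coin_singleton, Finset.prod_const]
          simp [s]
  refine le_antisymm ?_ bot_le
  refine ge_of_tendsto' (ENNReal.tendsto_pow_atTop_nhds_zero_of_lt_one ?_) h
  exact ENNReal.inv_lt_one.2 (by norm_num)

theorem lam_blk (a : I) {B : Set Blk} (hB : MeasurableSet B) : lam {u | u a ∈ B} = lam0 B :=
  (measurePreserving_eval_infinitePi (fun _ : I => lam0) a).measure_preimage hB.nullMeasurableSet

theorem lam_singleton (u : I → Blk) : lam {u} = 0 := by
  have a : I := Classical.arbitrary I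
  refine measure_mono_null (t := {w | w a ∈ ({u a} : Set Blk)}) ?_ ?_
  · rintro x rfl
    simp
  · rw [lam_blk a (MeasurableSet.singleton _), lam0_singleton]

/-- Measurable sets of block sequences depend on countably many blocks. -/
theorem exists_countable_dep {M : Set (I → Blk)} (hM : MeasurableSet M) :
    ∃ J : Set I, J.Countable ∧ ∀ u v : I → Blk, (∀ a ∈ J, u a = v a) → (u ∈ M ↔ v ∈ M) := by
  let D : MeasurableSpace (I → Blk) :=
    { MeasurableSet' := fun M => ∃ J : Set I, J.Countable ∧
        ∀ u v : I → Blk, (∀ a ∈ J, u a = v a) → (u ∈ M ↔ v ∈ M)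
      measurableSet_empty := ⟨∅, countable_empty, fun _ _ _ => Iff.rfl⟩
      measurableSet_compl := fun M ⟨J, hJ, h⟩ => ⟨J, hJ, fun u v huv => not_congr (h u v huv)⟩
      measurableSet_iUnion := fun M h => by
        choose J hJ h using h
        refine ⟨⋃ n, J n, countable_iUnion hJ, fun u v huv => ?_⟩
        simp only [mem_iUnion]
        exact exists_congr fun n => h n u v fun a ha => huv a (mem_iUnion.2 ⟨n, ha⟩) }
  have h1 : (MeasurableSpace.pi : MeasurableSpace (I → Blk)) ≤ D := by
    refine iSup_le fun a => ?_
    rintro _ ⟨s, _, rfl⟩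
    refine ⟨{a}, countable_singleton a, fun u v huv => ?_⟩
    rw [mem_preimage, mem_preimage, huv a rfl]
  exact h1 M hM

/-- Eventually constant block sequences. -/
def KSet : Set (I → Blk) := {u | ∃ β, ∀ a, β ≤ a → u a = u β}

theorem exists_mem_KSet {M : Set (I → Blk)} (hM : MeasurableSet M) (hne : M.Nonempty) :
    ∃ u ∈ KSet, u ∈ M := by
  obtain ⟨J, hJ, h⟩ := exists_countable_dep hM
  obtain ⟨w, hw⟩ := hne
  obtain ⟨β, hβ⟩ := exists_bound hJ
  refine ⟨fun a => if a < β then w a else fun _ => false, ⟨β, fun a ha => ?_⟩,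
    (h _ _ fun a ha => ?_).2 hw⟩
  · simp only
    rw [if_neg (not_lt.2 ha), if_neg (lt_irrefl β)]
  · rw [if_pos (hβ a ha)]

theorem flipFun_mem_KSet {c : Blk} {a : I} {u : I → Blk} (hu : u ∈ KSet) :
    flipFun c a u ∈ KSet := by
  obtain ⟨β, hβ⟩ := hu
  obtain ⟨γ, hγ⟩ := exists_gt (max β a)
  have hγβ : β ≤ γ := (le_max_left β a).trans hγ.le
  have hγa : a < γ := (le_max_right β a).trans_lt hγ
  refine ⟨γ, fun a' ha' => ?_⟩
  rw [flipFun_ne (hγa.trans_le ha').ne', flipFun_ne hγa.ne', hβ a' (hγβ.trans ha'), hβ γ hγβ]

/-- The space of eventually constant block sequences. -/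
def K : Type := {u : I → Blk // u ∈ KSet}

/-- The block sequence underlying a point of `K`. -/
def K.blk (u : K) : I → Blk := Subtype.val u

theorem K.ext {u v : K} (h : u.blk = v.blk) : u = v := Subtype.ext h

/-- The trace outer measure on `K`. -/
noncomputable def outK : OuterMeasure K := OuterMeasure.comap K.blk lam.toOuterMeasure

theorem outK_apply (s : Set K) : outK s = lam (K.blk '' s) := rfl

noncomputable instance : MeasurableSpace K := outK.caratheodory

theorem measurableSet_K_iff {s : Set K} : MeasurableSet s ↔ outK.IsCaratheodory s := Iff.rfl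

/-- The probability measure on `K`. -/
noncomputable def lamK : Measure K := outK.toMeasure le_rfl

theorem lamK_apply {s : Set K} (hs : MeasurableSet s) : lamK s = lam (K.blk '' s) :=
  toMeasure_apply _ _ hs

theorem measurable_blk : Measurable K.blk := by
  intro M hM
  rw [measurableSet_K_iff]
  intro t
  rw [outK_apply, outK_apply, outK_apply]
  have h1 : K.blk '' (t ∩ K.blk ⁻¹' M) = K.blk '' t ∩ M := image_inter_preimage _ _ _
  have h2 : K.blk '' (t \ K.blk ⁻¹' M) = K.blk '' t \ M := by
    rw [sdiff_eq, ← preimage_compl, image_inter_preimage, sdiff_eq]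
  rw [h1, h2]
  exact (measure_inter_add_sdiff _ hM).symm

theorem lamK_preimage {M : Set (I → Blk)} (hM : MeasurableSet M) :
    lamK (K.blk ⁻¹' M) = lam M := by
  rw [lamK_apply (measurable_blk hM)]
  have h0 : K.blk '' (K.blk ⁻¹' M) ⊆ M := image_preimage_subset _ _
  refine le_antisymm (measure_mono h0) ?_
  set C := toMeasurable lam (K.blk '' (K.blk ⁻¹' M)) with hC
  have h1 : lam C = lam (K.blk '' (K.blk ⁻¹' M)) := measure_toMeasurable _
  rw [← h1]
  have h2 : M \ C = ∅ := by
    by_contra hne
    obtain ⟨u, hu, huM⟩ := exists_mem_KSet (hM.diff (measurableSet_toMeasurable _ _))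
      (nonempty_iff_ne_empty.2 hne)
    apply huM.2
    apply subset_toMeasurable
    exact ⟨⟨u, hu⟩, huM.1, rfl⟩
  exact measure_mono (sdiff_eq_empty.1 h2)

instance : IsProbabilityMeasure lamK := ⟨by
  rw [← preimage_univ (f := K.blk), lamK_preimage MeasurableSet.univ, measure_univ]⟩

theorem lamK_blk (a : I) {B : Set Blk} (hB : MeasurableSet B) :
    lamK {u | u.blk a ∈ B} = lam0 B := by
  rw [← lam_blk a hB]
  exact lamK_preimage (measurable_pi_apply a hB)

theorem measurableSet_singleton_K (u : K) : MeasurableSet ({u} : Set K) := by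
  rw [measurableSet_K_iff]
  have h0 : outK {u} = 0 := by
    rw [outK_apply, image_singleton, lam_singleton]
  rw [OuterMeasure.isCaratheodory_iff_le']
  intro t
  have h1 : outK (t ∩ {u}) = 0 := le_antisymm (h0 ▸ outK.mono inter_subset_right) bot_le
  rw [h1, zero_add]
  exact outK.mono sdiff_subset

/-- The flip on `K`. -/
noncomputable def flipK (c : Blk) (a : I) (u : K) : K := ⟨flipFun c a u.blk, flipFun_mem_KSet u.2⟩

theorem blk_flipK (c : Blk) (a : I) (u : K) : (flipK c a u).blk = flipFun c a u.blk := rfl

theorem flipK_flipK (c : Blk) (a : I) (u : K) : flipK c a (flipK c a u) = u :=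
  K.ext (flipFun_flipFun c a u.blk)

theorem outK_preimage_flipK (c : Blk) (a : I) (s : Set K) : outK (flipK c a ⁻¹' s) = outK s := by
  rw [outK_apply, outK_apply, ← lam_preimage_flip c a (K.blk '' s)]
  congr 1
  ext w
  constructor
  · rintro ⟨u, hu, rfl⟩
    exact ⟨flipK c a u, hu, rfl⟩
  · rintro ⟨u, hu, huw⟩
    refine ⟨flipK c a u, ?_, ?_⟩
    · rw [mem_preimage, flipK_flipK]
      exact hu
    · rw [blk_flipK, huw, flipFun_flipFun]

theorem measurable_flipK (c : Blk) (a : I) : Measurable (flipK c a) := by
  intro s hs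
  rw [measurableSet_K_iff] at hs ⊢
  intro t
  have h := hs (flipK c a ⁻¹' t)
  rw [outK_preimage_flipK] at h
  rw [h]
  have hpp : ∀ r : Set K, flipK c a ⁻¹' (flipK c a ⁻¹' r) = r := fun r => by
    ext u
    rw [mem_preimage, mem_preimage, flipK_flipK]
  congr 1
  · rw [← outK_preimage_flipK c a (t ∩ flipK c a ⁻¹' s), preimage_inter, hpp]
  · rw [← outK_preimage_flipK c a (t \ flipK c a ⁻¹' s), preimage_sdiff, hpp]

theorem lamK_preimage_flipK (c : Blk) (a : I) {s : Set K} (hs : MeasurableSet s) :
    lamK (flipK c a ⁻¹' s) = lamK s := by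
  rw [lamK, toMeasure_apply _ _ hs, toMeasure_apply _ _ (measurable_flipK c a hs),
    outK_preimage_flipK]

end Pool.Agent.Helper90.Lmp
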