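import Pool.Agent.Helper90.Lmp.Spaces

/-!
# No jointly injective span of zigzag morphisms relates the roots
-/

open Set Filter MeasureTheory
open scoped ENNReal

namespace Pool.Agent.Helper90.Lmp

open Lined

theorem mass_node {φ φ' : ℝ → Pt X} {z : X} {s : St X φ'}
    (h : mass (St.node z : St X φ) = mass s) : ∃ z', s = St.node z' := by
  cases s with
  | root => exact absurd h (by simp [mass])
  | line b => exact absurd h (by simp [mass, inv_inj])
  | node z' => exact ⟨z', rfl⟩
  | pt w => exact absurd h (by simp [mass, inv_inj])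
  | leaf y =>
    have h1 := gl_lt y
    have h2 : (4⁻¹ : ℝ≥0∞) ≤ 3⁻¹ := ENNReal.inv_le_inv.2 (by norm_num)
    have h3 : (3⁻¹ : ℝ≥0∞) = gl y := h
    rw [← h3] at h1
    exact absurd h1 (not_lt.2 h2)

theorem mass_pt {φ φ' : ℝ → Pt X} {w : Pt X} {s : St X φ'}
    (h : mass (St.pt w : St X φ) = mass s) : ∃ w', s = St.pt w' := by
  cases s with
  | root => exact absurd h (by simp [mass])
  | line b => exact absurd h (by simp [mass, inv_inj])
  | node z' => exact absurd h (by simp [mass, inv_inj])
  | pt w => exact ⟨w, rfl⟩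
  | leaf y => exact absurd h (gl_lt y).ne'

theorem mass_leaf {φ φ' : ℝ → Pt X} {y : ℝ} {s : St X φ'}
    (h : mass (St.leaf y : St X φ) = mass s) : s = St.leaf y := by
  have h1 := gl_lt y
  cases s with
  | root =>
    have h3 : gl y = 1 := h
    rw [h3] at h1
    exact absurd h1 (not_lt.2 (ENNReal.inv_le_one.2 (by norm_num)))
  | line b =>
    have h3 : gl y = 2⁻¹ := h
    rw [h3] at h1
    exact absurd h1 (not_lt.2 (ENNReal.inv_le_inv.2 (by norm_num)))
  | node z =>
    have h3 : gl y = 3⁻¹ := h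
    rw [h3] at h1
    exact absurd h1 (not_lt.2 (ENNReal.inv_le_inv.2 (by norm_num)))
  | pt w =>
    have h3 : gl y = 4⁻¹ := h
    rw [h3] at h1
    exact absurd h1 (lt_irrefl _)
  | leaf y' =>
    have h3 : gl y = gl y' := h
    rw [gl_inj h3]

section sets

variable {φ : ℝ → Pt X}

/-- Leaves over a point. -/
def leafSet (φ : ℝ → Pt X) (w : Pt X) : Set (St X φ) := {s | ∃ y, s = St.leaf y ∧ φ y = w}

/-- Points over a node whose `K`-part lies in `A`. -/
def fibSet (φ : ℝ → Pt X) (x : X) (A : Set K) : Set (St X φ) :=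
  {s | ∃ w : Pt X, s = St.pt w ∧ w.z = x ∧ w.u ∈ A}

/-- Nodes in `A`. -/
def nodeSet (φ : ℝ → Pt X) (A : Set X) : Set (St X φ) := {s | ∃ x, s = St.node x ∧ x ∈ A}

/-- Lines in `A`. -/
def lineSet (φ : ℝ → Pt X) (A : Set Line) : Set (St X φ) := {s | ∃ b, s = St.line b ∧ b ∈ A}

/-- Points over the line `b` whose bit `n` in the block given by the line is set. -/
def testSet (φ : ℝ → Pt X) (b : Line) (n : N) : Set (St X φ) :=
  {s | ∃ w : Pt X, s = St.pt w ∧ ∃ α, w.z = nd b α ∧ w.u.blk (b α) n = true}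

theorem measurable_leafSet (w : Pt X) : MeasurableSet (leafSet φ w) := by
  refine measurableSet_St.2 ⟨⟨⟨?_, ?_⟩, ?_⟩, ?_⟩
  · convert @MeasurableSet.empty _ (filterSpace lineFilter) using 1
    ext; simp [leafSet]
  · convert @MeasurableSet.empty _ (nodeSpace X) using 1
    ext; simp [leafSet]
  · convert MeasurableSet.empty using 1
    ext; simp [leafSet]
  · refine ⟨Prod.fst ⁻¹' {w}, measurable_fst (measurableSet_singleton_Pt w), ?_⟩
    ext y
    simp [leafSet, gr]

theorem measurable_fibSet (x : X) {A : Set K} (hA : MeasurableSet A) :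
    MeasurableSet (fibSet φ x A) := by
  refine measurableSet_St.2 ⟨⟨⟨?_, ?_⟩, ?_⟩, ?_⟩
  · convert @MeasurableSet.empty _ (filterSpace lineFilter) using 1
    ext; simp [fibSet]
  · convert @MeasurableSet.empty _ (nodeSpace X) using 1
    ext; simp [fibSet]
  · convert measurableSet_fibre x hA using 1
    ext; simp [fibSet]
  · convert @MeasurableSet.empty _ (leafSpace φ) using 1
    ext; simp [fibSet]

theorem measurable_nodeSet {A : Set X} (hA : MeasurableSet[nodeSpace X] A) :
    MeasurableSet (nodeSet φ A) := by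
  refine measurableSet_St.2 ⟨⟨⟨?_, ?_⟩, ?_⟩, ?_⟩
  · convert @MeasurableSet.empty _ (filterSpace lineFilter) using 1
    ext; simp [nodeSet]
  · convert hA using 1
    ext; simp [nodeSet]
  · convert MeasurableSet.empty using 1
    ext; simp [nodeSet]
  · convert @MeasurableSet.empty _ (leafSpace φ) using 1
    ext; simp [nodeSet]

theorem measurable_lineSet {A : Set Line} (hA : MeasurableSet[filterSpace lineFilter] A) :
    MeasurableSet (lineSet φ A) := by
  refine measurableSet_St.2 ⟨⟨⟨?_, ?_⟩, ?_⟩, ?_⟩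
  · convert hA using 1
    ext; simp [lineSet]
  · convert @MeasurableSet.empty _ (nodeSpace X) using 1
    ext; simp [lineSet]
  · convert MeasurableSet.empty using 1
    ext; simp [lineSet]
  · convert @MeasurableSet.empty _ (leafSpace φ) using 1
    ext; simp [lineSet]

theorem measurable_bit (a : I) (n : N) (c : Bool) : MeasurableSet {u : K | u.blk a n = c} := by
  have : Measurable (fun u : K => u.blk a n) :=
    (measurable_pi_apply n).comp ((measurable_pi_apply a).comp measurable_blk)
  exact this (MeasurableSet.singleton c)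

theorem measurable_bitSet (n : N) : MeasurableSet {g : Blk | g n = true} := by
  have h : Measurable (fun g : Blk => g n) := measurable_pi_apply n
  exact h (MeasurableSet.singleton true)

theorem lamK_bit (a : I) (n : N) : lamK {u : K | u.blk a n = true} = 2⁻¹ := by
  have hB : MeasurableSet {g : Blk | g n = true} := measurable_bitSet n
  rw [← lam0_bit n true, ← lamK_blk a hB]
  rfl

theorem measurable_onLine (b : Line) : MeasurableSet[nodeSpace X] (onLine b) := by
  refine ⟨fun b' => ?_, Or.inr ?_⟩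
  · by_cases h : b' = b
    · subst h
      exact Or.inl (Eventually.of_forall fun α => nd_mem_onLine b' α)
    · exact Or.inr (eventually_notMem_onLine h)
  · exact (eventually_ne b).mono fun b' h => eventually_notMem_onLine h

theorem measurable_initial (b : Line) (a : I) :
    MeasurableSet[nodeSpace X] (nd b '' Iic a) := by
  have h : ∀ b' : Line, ∀ᶠ α in atTop, nd b' α ∉ nd b '' Iic a := by
    intro b'
    filter_upwards [eventually_gt a] with α hα
    rintro ⟨α', hα', h⟩
    have h1 := (nd_eq_iff.1 h).1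
    rw [h1] at hα'
    exact absurd hα (not_lt.2 hα')
  exact ⟨fun b' => Or.inr (h b'), Or.inr (Eventually.of_forall h)⟩

theorem measurable_testSet (b : Line) (n : N) : MeasurableSet (testSet φ b n) := by
  have h0 : ∀ b' : Line, b' ≠ b → ∀ᶠ α in atTop, ∀ u : K,
      (Pt.mk (nd b' α) u ∈ St.pt ⁻¹' testSet φ b n ↔ u.blk (b' α) ∈ (∅ : Set Blk)) := by
    intro b' hb
    filter_upwards [eventually_notMem_onLine hb] with α hα u
    simp only [mem_empty_iff_false, iff_false]
    rintro ⟨w, hw, β, hβ, _⟩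
    injection hw with hw
    subst hw
    exact hα ⟨β, hβ.symm⟩
  have hB : MeasurableSet {g : Blk | g n = true} := measurable_bitSet n
  refine measurableSet_St.2 ⟨⟨⟨?_, ?_⟩, ?_⟩, ?_⟩
  · convert @MeasurableSet.empty _ (filterSpace lineFilter) using 1
    ext; simp [testSet]
  · convert @MeasurableSet.empty _ (nodeSpace X) using 1
    ext; simp [testSet]
  · refine measurableSet_Pt.2 ⟨fun z => ?_, fun b' => ?_, ∅, MeasurableSet.empty,
      (eventually_ne b).mono h0⟩
    · by_cases hz : ∃ α, z = nd b α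
      · obtain ⟨α, rfl⟩ := hz
        convert measurable_bit (b α) n true using 1
        ext u
        constructor
        · rintro ⟨w, hw, β, hβ, h⟩
          injection hw with hw
          subst hw
          have := nd_inj hβ
          subst this
          exact h
        · intro h
          exact ⟨⟨nd b α, u⟩, rfl, α, rfl, h⟩
      · convert MeasurableSet.empty using 1
        ext u
        simp only [mem_empty_iff_false, iff_false]
        rintro ⟨w, hw, β, hβ, _⟩
        injection hw with hw
        subst hw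
        exact hz ⟨β, hβ⟩
    · by_cases h : b' = b
      · subst h
        refine ⟨{g : Blk | g n = true}, hB, Eventually.of_forall fun α u => ?_⟩
        constructor
        · rintro ⟨w, hw, β, hβ, h⟩
          injection hw with hw
          subst hw
          have := nd_inj hβ
          subst this
          exact h
        · intro h
          exact ⟨⟨nd b' α, u⟩, rfl, α, rfl, h⟩
      · exact ⟨∅, MeasurableSet.empty, h0 b' h⟩
  · convert @MeasurableSet.empty _ (leafSpace φ) using 1
    ext; simp [testSet]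

end sets

/-- The first process. -/
noncomputable abbrev φ₁ : ℝ → Pt X := legF.F ∘ Phi

/-- The second process. -/
noncomputable abbrev φ₂ : ℝ → Pt X := legG.F ∘ Phi

section main

variable {L : Type*} {a₀ : L} {R : Type*} [MeasurableSpace R] {Q : LMP L R}
  {p : R → St X φ₁} {q : R → St X φ₂}

theorem marg₁ (hp : IsZigzag Q (sys a₀ thick_F) p) (r : R) {E : Set (St X φ₁)}
    (hE : MeasurableSet E) : Q.τ a₀ r (p ⁻¹' E) = tr (p r) E := by
  rw [← hp.2 a₀ r E hE, sys_self]

theorem marg₂ (hq : IsZigzag Q (sys a₀ thick_G) q) (r : R) {E : Set (St X φ₂)}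
    (hE : MeasurableSet E) : Q.τ a₀ r (q ⁻¹' E) = tr (q r) E := by
  rw [← hq.2 a₀ r E hE, sys_self]

theorem total₁ (hp : IsZigzag Q (sys a₀ thick_F) p) (r : R) : Q.τ a₀ r univ = mass (p r) := by
  rw [← tr_univ thick_F, ← marg₁ hp r MeasurableSet.univ, preimage_univ]

theorem total₂ (hq : IsZigzag Q (sys a₀ thick_G) q) (r : R) : Q.τ a₀ r univ = mass (q r) := by
  rw [← tr_univ thick_G, ← marg₂ hq r MeasurableSet.univ, preimage_univ]

theorem mass_eq (hp : IsZigzag Q (sys a₀ thick_F) p) (hq : IsZigzag Q (sys a₀ thick_G) q)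
    (r : R) : mass (p r) = mass (q r) := by
  rw [← total₁ hp, ← total₂ hq]

theorem fin (a : L) (r : R) : IsFiniteMeasure (Q.τ a r) :=
  ⟨(Q.le_one a r).trans_lt ENNReal.one_lt_top⟩

/-- Two sets carrying the whole mass have a common point. -/
theorem exists_common (hp : IsZigzag Q (sys a₀ thick_F) p) (hq : IsZigzag Q (sys a₀ thick_G) q)
    (r : R) {E : Set (St X φ₁)} {E' : Set (St X φ₂)} (hE : MeasurableSet E)
    (hE' : MeasurableSet E') (h1 : tr (p r) E = mass (p r)) (h2 : tr (q r) E' = mass (q r))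
    (h0 : mass (p r) ≠ 0) : ∃ r', p r' ∈ E ∧ q r' ∈ E' := by
  have := fin (Q := Q) a₀ r
  by_contra hcon
  push Not at hcon
  have h3 : q ⁻¹' E' ⊆ (p ⁻¹' E)ᶜ := fun r' hr' hr => hcon r' hr hr'
  have h4 : Q.τ a₀ r ((p ⁻¹' E)ᶜ) = 0 := by
    rw [measure_compl (hp.1 hE) (measure_ne_top _ _), marg₁ hp r hE, h1, total₁ hp, tsub_self]
  have h5 : Q.τ a₀ r (q ⁻¹' E') = 0 := measure_mono_null h3 h4
  rw [marg₂ hq r hE', h2, ← mass_eq hp hq] at h5
  exact h0 h5

/-- Related points come from a common leaf. -/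
theorem rel_pt (hp : IsZigzag Q (sys a₀ thick_F) p) (hq : IsZigzag Q (sys a₀ thick_G) q)
    {r : R} {w : Pt X} (hw : p r = St.pt w) :
    ∃ w', q r = St.pt w' ∧ w'.z = w.z ∧ ∃ a, w'.u = flipK (e w.z.len) a w.u := by
  obtain ⟨w', hw'⟩ := mass_pt (φ := φ₁) (φ' := φ₂) (w := w) (s := q r)
    (by rw [← hw]; exact mass_eq hp hq r)
  refine ⟨w', hw', ?_⟩
  have h1 : tr (p r) (leafSet φ₁ w) = mass (p r) := by
    rw [hw, tr_pt w (measurable_leafSet w)]
    have : St.leaf ⁻¹' leafSet φ₁ w = φ₁ ⁻¹' {w} := by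
      ext y; simp [leafSet]
    rw [this, kap_fibre thick_F w (measurableSet_singleton_Pt w), mul_one]
    rfl
  have h2 : tr (q r) (leafSet φ₂ w') = mass (q r) := by
    rw [hw', tr_pt w' (measurable_leafSet w')]
    have : St.leaf ⁻¹' leafSet φ₂ w' = φ₂ ⁻¹' {w'} := by
      ext y; simp [leafSet]
    rw [this, kap_fibre thick_G w' (measurableSet_singleton_Pt w'), mul_one]
    rfl
  obtain ⟨r', ⟨y, hy, hyw⟩, y', hy', hyw'⟩ := exists_common hp hq r (measurable_leafSet w)
    (measurable_leafSet w') h1 h2 (by rw [hw]; simp [mass])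
  have h3 : q r' = St.leaf y := mass_leaf (φ := φ₁) (φ' := φ₂) (s := q r')
    (by rw [← hy]; exact mass_eq hp hq r')
  rw [hy'] at h3
  injection h3 with h3
  subst h3
  have h4 : (φ₁ y').z = (φ₂ y').z ∧ ∃ a, (φ₂ y').u = flipK (e (φ₁ y').z.len) a (φ₁ y').u :=
    flip_of_mem
  rw [hyw, hyw'] at h4
  exact ⟨h4.1.symm, h4.2⟩

/-- Related nodes are equal. -/
theorem rel_node (hp : IsZigzag Q (sys a₀ thick_F) p) (hq : IsZigzag Q (sys a₀ thick_G) q)
    {r : R} {x : X} (hx : p r = St.node x) : q r = St.node x := by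
  obtain ⟨x', hx'⟩ := mass_node (φ := φ₁) (φ' := φ₂) (z := x) (s := q r)
    (by rw [← hx]; exact mass_eq hp hq r)
  have h1 : tr (p r) (fibSet φ₁ x univ) = mass (p r) := by
    rw [hx, tr_node x (measurable_fibSet x MeasurableSet.univ)]
    have : {u : K | (St.pt ⟨x, u⟩ : St X φ₁) ∈ fibSet φ₁ x univ} = univ := by
      ext u; simp [fibSet]
    rw [this, measure_univ, mul_one]
    rfl
  have h2 : tr (q r) (fibSet φ₂ x' univ) = mass (q r) := by
    rw [hx', tr_node x' (measurable_fibSet x' MeasurableSet.univ)]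
    have : {u : K | (St.pt ⟨x', u⟩ : St X φ₂) ∈ fibSet φ₂ x' univ} = univ := by
      ext u; simp [fibSet]
    rw [this, measure_univ, mul_one]
    rfl
  obtain ⟨r', ⟨w, hw, hwx, _⟩, w', hw', hwx', _⟩ := exists_common hp hq r
    (measurable_fibSet x MeasurableSet.univ) (measurable_fibSet x' MeasurableSet.univ) h1 h2
    (by rw [hx]; simp [mass])
  obtain ⟨w'', hw'', hz, _⟩ := rel_pt hp hq hw
  rw [hw'] at hw''
  injection hw'' with hw''
  subst hw''
  rw [hx', ← hwx', hz, hwx]

/-- Pairs of points over `x` agreeing in the block `a`. -/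
def agree (p : R → St X φ₁) (q : R → St X φ₂) (x : X) (a : I) : Set R :=
  ⋂ n : N, ⋃ c : Bool, (p ⁻¹' fibSet φ₁ x {u | u.blk a n = c}) ∩
    (q ⁻¹' fibSet φ₂ x {u | u.blk a n = c})

theorem measurable_agree (hp : IsZigzag Q (sys a₀ thick_F) p)
    (hq : IsZigzag Q (sys a₀ thick_G) q) (x : X) (a : I) : MeasurableSet (agree p q x a) :=
  MeasurableSet.iInter fun n => MeasurableSet.iUnion fun c =>
    (hp.1 (measurable_fibSet x (measurable_bit a n c))).inter
      (hq.1 (measurable_fibSet x (measurable_bit a n c)))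

omit [MeasurableSpace R] in
theorem mem_agree_iff {x : X} {a : I} {r : R} : r ∈ agree p q x a ↔
    ∃ w w', p r = St.pt w ∧ q r = St.pt w' ∧ w.z = x ∧ w'.z = x ∧ w.u.blk a = w'.u.blk a := by
  constructor
  · intro h
    simp only [agree, mem_iInter, mem_iUnion] at h
    obtain ⟨c, ⟨w, hw, hwx, _⟩, w', hw', hwx', _⟩ := h (0, 0)
    refine ⟨w, w', hw, hw', hwx, hwx', ?_⟩
    funext n
    obtain ⟨c, ⟨w₁, hw₁, _, hc⟩, w₁', hw₁', _, hc'⟩ := h n
    rw [hw] at hw₁
    rw [hw'] at hw₁'
    injection hw₁ with hw₁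
    injection hw₁' with hw₁'
    subst hw₁ hw₁'
    exact Eq.trans hc (Eq.symm hc')
  · rintro ⟨w, w', hw, hw', hwx, hwx', h⟩
    simp only [agree, mem_iInter, mem_iUnion]
    intro n
    exact ⟨w.u.blk a n, ⟨w, hw, hwx, rfl⟩, w', hw', hwx', (congrFun h n).symm⟩

theorem blk_ne_of_flip {c : I} {a a' : I} {u : K} (h : a' ≠ a) :
    (flipK (e c) a u).blk a' ≠ u.blk a' := by
  rw [blk_flipK, flipFun_ne h]
  intro h1
  have := congrFun h1 (0, 0)
  simp [xorBlk, e_zero] at this

theorem disjoint_agree (hp : IsZigzag Q (sys a₀ thick_F) p)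
    (hq : IsZigzag Q (sys a₀ thick_G) q) (x : X) :
    Pairwise (Function.onFun Disjoint (agree p q x)) := by
  intro a a' haa
  rw [Function.onFun, Set.disjoint_left]
  intro r h h'
  obtain ⟨w, w', hw, hw', _, _, hb⟩ := mem_agree_iff.1 h
  obtain ⟨w₁, w₁', hw₁, hw₁', _, _, hb'⟩ := mem_agree_iff.1 h'
  rw [hw] at hw₁
  rw [hw'] at hw₁'
  injection hw₁ with hw₁
  injection hw₁' with hw₁'
  subst hw₁ hw₁'
  obtain ⟨w₂, hw₂, _, a₁, hfl⟩ := rel_pt hp hq hw
  rw [hw'] at hw₂
  injection hw₂ with hw₂
  subst hw₂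
  rw [hfl] at hb hb'
  have h1 : a = a₁ := by
    by_contra hne
    exact blk_ne_of_flip hne hb.symm
  have h2 : a' = a₁ := by
    by_contra hne
    exact blk_ne_of_flip hne hb'.symm
  exact haa (h1.trans h2.symm)

/-- No jointly injective span of zigzag morphisms reaches the roots. -/
theorem no_bisim (hp : IsZigzag Q (sys a₀ thick_F) p) (hq : IsZigzag Q (sys a₀ thick_G) q)
    (hinj : ∀ r r', p r = p r' → q r = q r' → r = r') (r₀ : R) (h₀ : p r₀ = St.root) : False := by
  classical
  -- bounds for the served blocks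
  have hs : ∀ x : X, ∃ β : I, ∀ r, p r = St.node x → ∀ a, β < a →
      Q.τ a₀ r (agree p q x a) = 0 := by
    intro x
    by_cases h : ∃ r, p r = St.node x
    · obtain ⟨r, hr⟩ := h
      have := fin (Q := Q) a₀ r
      have hc := Measure.countable_meas_pos_of_disjoint_iUnion (μ := Q.τ a₀ r)
        (measurable_agree hp hq x) (disjoint_agree hp hq x)
      obtain ⟨β, hβ⟩ := exists_bound hc
      refine ⟨β, fun r' hr' a ha => ?_⟩
      have : r' = r := hinj r' r (hr'.trans hr.symm)
        ((rel_node hp hq hr').trans (rel_node hp hq hr).symm)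
      rw [this]
      by_contra hne
      exact absurd (hβ a (pos_iff_ne_zero.2 hne)) (not_lt.2 ha.le)
    · exact ⟨Classical.arbitrary I, fun r hr => absurd ⟨r, hr⟩ h⟩
  choose s hs using hs
  -- an evading line
  obtain ⟨r₁, b, hb, hbs⟩ : ∃ r₁ b, p r₁ = St.line b ∧ b ∈ Ev s := by
    have hEv : Ev s ∈ lineFilter := mem_lineFilter.2 ⟨s, Subset.rfl⟩
    have h1 : Q.τ a₀ r₀ (p ⁻¹' lineSet φ₁ (Ev s)) = 1 := by
      rw [marg₁ hp r₀ (measurable_lineSet (Or.inl hEv)), h₀,
        tr_root (measurable_lineSet (Or.inl hEv))]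
      have : St.line ⁻¹' lineSet φ₁ (Ev s) = Ev s := by
        ext b; simp [lineSet]
      rw [this, filterMeasure_of_mem hEv]
    by_contra hcon
    push Not at hcon
    have h2 : p ⁻¹' lineSet φ₁ (Ev s) = ∅ := by
      ext r
      simp only [mem_preimage, mem_empty_iff_false, iff_false]
      rintro ⟨b, hb, hbs⟩
      exact hcon r b hb hbs
    rw [h2, measure_empty] at h1
    exact zero_ne_one h1
  -- the measure along this line
  have := fin (Q := Q) a₀ r₁
  set ℓ : R → I := fun r => match p r with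
    | St.node x => x.len
    | _ => Classical.arbitrary I with hℓdef
  set T : Set R := p ⁻¹' nodeSet φ₁ (onLine b) with hT
  have hTm : MeasurableSet T := hp.1 (measurable_nodeSet (measurable_onLine b))
  have hTmem : ∀ r, r ∈ T → ∃ α, p r = St.node (nd b α) ∧ q r = St.node (nd b α) ∧ ℓ r = α := by
    rintro r ⟨x, hx, α, rfl⟩
    refine ⟨α, hx, rel_node hp hq hx, ?_⟩
    simp only [hℓdef, hx]
    rfl
  have hT1 : Q.τ a₀ r₁ T = 2⁻¹ := by
    rw [hT, marg₁ hp r₁ (measurable_nodeSet (measurable_onLine b)), hb,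
      tr_line b (measurable_nodeSet (measurable_onLine b))]
    have : {α : I | (St.node (j b α) : St X φ₁) ∈ nodeSet φ₁ (onLine b)} = univ := by
      ext α
      simp only [mem_univ, iff_true]
      exact ⟨nd b α, rfl, nd_mem_onLine b α⟩
    rw [this, filterMeasure_univ, mul_one]
  have hT0 : ∀ a, Q.τ a₀ r₁ (T ∩ {r | ℓ r ≤ a}) = 0 := by
    intro a
    have h1 : T ∩ {r | ℓ r ≤ a} ⊆ p ⁻¹' nodeSet φ₁ (nd b '' Iic a) := by
      rintro r ⟨hr, hra⟩
      obtain ⟨α, hα, _, hl⟩ := hTmem r hr
      exact ⟨nd b α, hα, α, by rw [← hl]; exact hra, rfl⟩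
    refine measure_mono_null h1 ?_
    rw [marg₁ hp r₁ (measurable_nodeSet (measurable_initial b a)), hb,
      tr_line b (measurable_nodeSet (measurable_initial b a))]
    have h2 : {α : I | (St.node (j b α) : St X φ₁) ∈ nodeSet φ₁ (nd b '' Iic a)}ᶜ ∈
        (atTop : Filter I) := by
      filter_upwards [eventually_gt a] with α hα
      rintro ⟨x, hx, α', hα', rfl⟩
      injection hx with hx
      have := nd_inj (b := b) hx
      subst this
      exact absurd hα (not_lt.2 hα')
    rw [filterMeasure_of_compl_mem h2, mul_zero]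
  have hTe : ∀ n, MeasurableSet (T ∩ {r | e (ℓ r) n = true}) := by
    intro n
    have hQm : MeasurableSet (p ⁻¹' testSet φ₁ b n ∩ q ⁻¹' testSet φ₂ b n) :=
      (hp.1 (measurable_testSet b n)).inter (hq.1 (measurable_testSet b n))
    have hm : MeasurableSet
        {r : R | Q.τ a₀ r (p ⁻¹' testSet φ₁ b n ∩ q ⁻¹' testSet φ₂ b n) = 0} :=
      (ProbabilityTheory.Kernel.measurable_coe (Q.τ a₀) hQm) (MeasurableSet.singleton 0)
    have heq : T ∩ {r | e (ℓ r) n = true} =
        T ∩ {r : R | Q.τ a₀ r (p ⁻¹' testSet φ₁ b n ∩ q ⁻¹' testSet φ₂ b n) = 0} := by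
      ext r
      refine and_congr_right fun hr => ?_
      obtain ⟨α, hpα, hqα, hl⟩ := hTmem r hr
      have := fin (Q := Q) a₀ r
      have hev : s (nd b α) < b α := hbs α
      have hag : Q.τ a₀ r (agree p q (nd b α) (b α)) = 0 := hs (nd b α) r hpα (b α) hev
      show e (ℓ r) n = true ↔ Q.τ a₀ r (p ⁻¹' testSet φ₁ b n ∩ q ⁻¹' testSet φ₂ b n) = 0
      rw [hl]
      constructor
      · intro hen
        have h1 : p ⁻¹' testSet φ₁ b n ∩ q ⁻¹' testSet φ₂ b n ⊆
            agree p q (nd b α) (b α) ∪ (p ⁻¹' fibSet φ₁ (nd b α) univ)ᶜ := by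
          rintro r' ⟨⟨w, hw, β, hβ, hwn⟩, w', hw', β', hβ', hwn'⟩
          by_cases hwz : w.z = nd b α
          · left
            have hβα : β = α := nd_inj (b := b) (hβ.symm.trans hwz)
            subst hβα
            obtain ⟨w₂, hw₂, hz, a₁, hfl⟩ := rel_pt hp hq hw
            rw [hw'] at hw₂
            injection hw₂ with hw₂
            subst hw₂
            have hβα' : β' = β := nd_inj (b := b) (hβ'.symm.trans (hz.trans hwz))
            subst hβα'
            refine mem_agree_iff.2 ⟨w, w', hw, hw', hwz, hz.trans hwz, ?_⟩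
            by_cases ha : b β' = a₁
            · rw [hfl, blk_flipK, ha, flipFun_same]
            · exfalso
              rw [hfl, blk_flipK, flipFun_ne ha, hwz] at hwn'
              simp only [xorBlk, len_nd, hen, hwn] at hwn'
              exact absurd hwn' (by decide)
          · right
            rintro ⟨w₃, hw₃, hz₃, _⟩
            rw [hw] at hw₃
            injection hw₃ with hw₃
            subst hw₃
            exact hwz hz₃
        refine measure_mono_null h1 (measure_union_null hag ?_)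
        rw [measure_compl (hp.1 (measurable_fibSet _ MeasurableSet.univ)) (measure_ne_top _ _),
          marg₁ hp r (measurable_fibSet _ MeasurableSet.univ), total₁ hp, hpα,
          tr_node _ (measurable_fibSet _ MeasurableSet.univ)]
        have : {u : K | (St.pt ⟨nd b α, u⟩ : St X φ₁) ∈ fibSet φ₁ (nd b α) univ} = univ := by
          ext u; simp [fibSet]
        rw [this, measure_univ, mul_one]
        exact tsub_self _
      · intro h0
        by_contra hen
        have hen' : e α n = false := by simpa using hen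
        have h1 : p ⁻¹' fibSet φ₁ (nd b α) {u | u.blk (b α) n = true} ⊆
            (p ⁻¹' testSet φ₁ b n ∩ q ⁻¹' testSet φ₂ b n) ∪ agree p q (nd b α) (b α) := by
          rintro r' ⟨w, hw, hwz, hwn⟩
          obtain ⟨w', hw', hz, a₁, hfl⟩ := rel_pt hp hq hw
          by_cases ha : b α = a₁
          · right
            refine mem_agree_iff.2 ⟨w, w', hw, hw', hwz, hz.trans hwz, ?_⟩
            rw [hfl, blk_flipK, ha, flipFun_same]
          · left
            refine ⟨⟨w, hw, α, hwz, hwn⟩, w', hw', α, hz.trans hwz, ?_⟩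
            rw [hfl, blk_flipK, flipFun_ne ha, hwz]
            have hwn2 : w.u.blk (b α) n = true := hwn
            simp only [xorBlk, len_nd, hen', hwn2]
            rfl
        have h2 : Q.τ a₀ r (p ⁻¹' fibSet φ₁ (nd b α) {u | u.blk (b α) n = true}) = 0 :=
          measure_mono_null h1 (measure_union_null h0 hag)
        rw [marg₁ hp r (measurable_fibSet _ (measurable_bit _ n true)), hpα,
          tr_node _ (measurable_fibSet _ (measurable_bit _ n true))] at h2
        have h3 : {u : K | (St.pt ⟨nd b α, u⟩ : St X φ₁) ∈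
            fibSet φ₁ (nd b α) {u | u.blk (b α) n = true}} = {u : K | u.blk (b α) n = true} := by
          ext u; simp [fibSet]
        rw [h3, lamK_bit] at h2
        exact absurd h2 (by simp)
    rw [heq]
    exact hTm.inter hm
  have hfinal := null_of_measurable (Q.τ a₀ r₁) ℓ T hTm hTe hT0
  rw [hT1] at hfinal
  exact absurd hfinal (by simp)

end main

end Pool.Agent.Helper90.Lmp
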