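import Pool.Agent.Helper90.Lmp.Sys

/-!
# Zigzag morphisms between the processes
-/

open Set Filter MeasureTheory
open scoped ENNReal

namespace Pool.Agent.Helper90.Lmp

open Lined

/-- Data inducing a morphism. -/
structure MorData (Z Z' : Type) [Lined Z] [Lined Z'] where
  π : Z → Z'
  θ : Z → K → K
  hπ : ∀ b α, π (j b α) = j b α
  hmeas : ∀ z, Measurable (θ z)
  hpres : ∀ z (E : Set K), MeasurableSet E → lamK (θ z ⁻¹' E) = lamK E
  hblk : ∀ b α u, (θ (j b α) u).blk (b α) = u.blk (b α)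

namespace MorData

variable {Z Z' : Type} [Lined Z] [Lined Z'] (D : MorData Z Z')

/-- The induced map on points. -/
def F (w : Pt Z) : Pt Z' := ⟨D.π w.z, D.θ w.z w.u⟩

theorem measurable_F : Measurable D.F := by
  intro E hE
  rw [measurableSet_Pt] at hE ⊢
  refine ⟨fun z => ?_, fun b => ?_, ?_⟩
  · exact D.hmeas z (hE.1 (D.π z))
  · obtain ⟨B, hB, h⟩ := hE.2.1 b
    refine ⟨B, hB, h.mono fun α hα u => ?_⟩
    rw [← D.hblk b α u, ← hα]
    show D.F ⟨j b α, u⟩ ∈ E ↔ _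
    unfold F
    rw [D.hπ]
  · obtain ⟨B, hB, h⟩ := hE.2.2
    refine ⟨B, hB, h.mono fun b hb => hb.mono fun α hα u => ?_⟩
    rw [← D.hblk b α u, ← hα]
    show D.F ⟨j b α, u⟩ ∈ E ↔ _
    unfold F
    rw [D.hπ]

/-- The induced map on states. -/
def map (φ : ℝ → Pt Z) : St Z φ → St Z' (D.F ∘ φ)
  | St.root => St.root
  | St.line b => St.line b
  | St.node z => St.node (D.π z)
  | St.pt w => St.pt (D.F w)
  | St.leaf y => St.leaf y

theorem gr_comp (φ : ℝ → Pt Z) : gr (D.F ∘ φ) = Prod.map D.F id ∘ gr φ := rfl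

theorem leafSpace_comp_le (φ : ℝ → Pt Z) : leafSpace (D.F ∘ φ) ≤ leafSpace φ := by
  rintro _ ⟨M, hM, rfl⟩
  exact ⟨Prod.map D.F id ⁻¹' M, (D.measurable_F.prodMap measurable_id) hM, rfl⟩

theorem nodeSpace_le {E : Set Z'} (hE : MeasurableSet[nodeSpace Z'] E) :
    MeasurableSet[nodeSpace Z] (D.π ⁻¹' E) := by
  refine ⟨fun b => ?_, ?_⟩
  · have := hE.1 b
    simpa only [mem_preimage, D.hπ] using this
  · have := hE.2
    simpa only [mem_preimage, D.hπ] using this

theorem measurable_map (φ : ℝ → Pt Z) : Measurable (D.map φ) := by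
  intro E hE
  rw [measurableSet_St] at hE ⊢
  exact ⟨⟨⟨hE.1.1.1, D.nodeSpace_le hE.1.1.2⟩, D.measurable_F hE.1.2⟩,
    D.leafSpace_comp_le φ _ hE.2⟩

theorem tr_map {φ : ℝ → Pt Z} (hφ : ThickMap φ) (hφ' : ThickMap (D.F ∘ φ)) (s : St Z φ)
    {E : Set (St Z' (D.F ∘ φ))} (hE : MeasurableSet E) :
    tr (D.map φ s) E = tr s (D.map φ ⁻¹' E) := by
  have hE' := D.measurable_map φ hE
  cases s with
  | root =>
    rw [tr_root hE']
    show tr St.root E = _
    rw [tr_root hE]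
    rfl
  | line b =>
    rw [tr_line b hE']
    show tr (St.line b) E = _
    rw [tr_line b hE]
    congr 2
    ext α
    show St.node (j b α) ∈ E ↔ St.node (D.π (j b α)) ∈ E
    rw [D.hπ]
  | node z =>
    rw [tr_node z hE']
    show tr (St.node (D.π z)) E = _
    rw [tr_node (D.π z) hE]
    congr 1
    exact (D.hpres z _ ((measurableSet_Pt.1 (measurableSet_St.1 hE).1.2).1 (D.π z))).symm
  | pt w =>
    rw [tr_pt w hE']
    show tr (St.pt (D.F w)) E = _
    rw [tr_pt (D.F w) hE]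
    congr 1
    obtain ⟨M, hM, hME⟩ := (measurableSet_St.1 hE).2
    have h1 : St.leaf ⁻¹' (D.map φ ⁻¹' E) = St.leaf ⁻¹' E := rfl
    rw [h1, ← hME, kap_apply hφ' _ hM, D.gr_comp, preimage_comp,
      kap_apply hφ w ((D.measurable_F.prodMap measurable_id) hM)]
    rfl
  | leaf y =>
    rw [tr_leaf y hE']
    show tr (St.leaf y) E = _
    rw [tr_leaf y hE]
    rfl

theorem isZigzag {L : Type*} (a₀ : L) {φ : ℝ → Pt Z} (hφ : ThickMap φ)
    (hφ' : ThickMap (D.F ∘ φ)) : IsZigzag (sys a₀ hφ) (sys a₀ hφ') (D.map φ) := by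
  refine ⟨D.measurable_map φ, fun a s E hE => ?_⟩
  by_cases h : a = a₀
  · subst h
    rw [sys_self, sys_self]
    exact D.tr_map hφ hφ' s hE
  · rw [sys_ne h, sys_ne h]
    rfl

end MorData

end Pool.Agent.Helper90.Lmp
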