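import Mathlib

/-!
# The first uncountable ordinal as a type, and a family of reals carrying no diffuse measure
-/

open Cardinal Set Filter MeasureTheory

namespace Pool.Agent.Helper90.Lmp

/-- The first uncountable ordinal. -/
abbrev I : Type := (ℵ₁ : Cardinal.{0}).ord.ToType

theorem mk_I : #I = ℵ₁ := mk_ord_toType _

theorem countable_Iio (a : I) : (Iio a).Countable := by
  rw [← le_aleph0_iff_set_countable, ← lt_aleph_one_iff]
  have := mk_Iio_lt (α := I) a (by simp)
  rwa [mk_I] at this

theorem countable_Iic (a : I) : (Iic a).Countable := by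
  rw [← Iio_insert]
  exact (countable_Iio a).insert a

theorem not_countable_I : ¬ (univ : Set I).Countable := by
  rw [← le_aleph0_iff_set_countable, ← lt_aleph_one_iff, mk_univ, mk_I]
  exact lt_irrefl _

theorem exists_bound {C : Set I} (hC : C.Countable) : ∃ β : I, ∀ c ∈ C, c < β := by
  by_contra h
  push Not at h
  apply not_countable_I
  refine (hC.biUnion fun c _ => countable_Iic c).mono fun b _ => ?_
  obtain ⟨c, hc, hbc⟩ := h b
  exact mem_biUnion hc hbc

instance : Nonempty I := by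
  by_contra h
  rw [not_nonempty_iff] at h
  exact not_countable_I (to_countable _)

instance : NoMaxOrder I := ⟨fun a => by
  obtain ⟨β, hβ⟩ := exists_bound (countable_singleton a)
  exact ⟨β, hβ a rfl⟩⟩

theorem eventually_iff {p : I → Prop} : (∀ᶠ a in atTop, p a) ↔ ∃ β, ∀ a, β ≤ a → p a := by
  rw [Filter.eventually_atTop]

instance : CountableInterFilter (atTop : Filter I) := ⟨fun S hS h => by
  have h1 : ∀ s ∈ S, ∃ β : I, ∀ a, β ≤ a → a ∈ s := fun s hs => eventually_iff.1 (h s hs)
  choose! f hf using h1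
  obtain ⟨β, hβ⟩ := exists_bound (hS.image f)
  refine eventually_iff.2 ⟨β, fun a ha => mem_sInter.2 fun s hs => ?_⟩
  exact hf s hs a ((hβ _ (mem_image_of_mem f hs)).le.trans ha)⟩

theorem eventually_gt (β : I) : ∀ᶠ a in atTop, β < a := Filter.eventually_gt_atTop β

/-- The countable index set of the bits. -/
abbrev N : Type := ℕ × ℕ

theorem exists_code : ∃ (r : I → ℕ → Bool) (c : I → ℕ → ℕ → Bool),
    ∀ a b : I, a ≤ b ↔ ∃ k, r a = c b k := by
  have h1 : #I ≤ #(ℕ → Bool) := by
    rw [mk_I]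
    simp only [mk_pi, prod_const, lift_id, mk_bool, mk_nat]
    exact aleph_one_le_continuum
  obtain ⟨r⟩ := Cardinal.le_def _ _ |>.1 h1
  have h2 : ∀ b : I, ∃ g : ℕ → I, range g = Iic b := fun b =>
    ((countable_Iic b).exists_eq_range ⟨b, mem_Iic.2 le_rfl⟩).imp fun _ h => h.symm
  choose g hg using h2
  refine ⟨r, fun b k => r (g b k), fun a b => ?_⟩
  constructor
  · intro h
    have : a ∈ range (g b) := by rw [hg]; exact h
    obtain ⟨k, hk⟩ := this
    exact ⟨k, by simp only [hk]⟩
  · rintro ⟨k, hk⟩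
    have h3 : a = g b k := r.injective hk
    have h4 : g b k ∈ Iic b := by rw [← hg]; exact mem_range_self k
    rw [h3]
    exact h4

/-- A family of distinct reals indexed by `ω₁` carrying no diffuse measure. -/
noncomputable def e (a : I) : N → Bool := fun n =>
  match n with
  | (0, 0) => true
  | (0, k + 1) => exists_code.choose a k
  | (m + 1, k) => exists_code.choose_spec.choose a m k

theorem e_zero (a : I) : e a (0, 0) = true := rfl

theorem le_iff_e (a b : I) : a ≤ b ↔ ∃ k, ∀ n, e a (0, n + 1) = e b (k + 1, n) := by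
  rw [exists_code.choose_spec.choose_spec a b]
  refine exists_congr fun k => ?_
  rw [funext_iff]
  rfl

/-- No nonzero measure on a set mapped to `ω₁` with null initial segments measures all `e`-bits. -/
theorem null_of_measurable {Ω : Type*} [MeasurableSpace Ω] (ρ : Measure Ω) [IsFiniteMeasure ρ]
    (ℓ : Ω → I) (s : Set Ω) (hs : MeasurableSet s)
    (hℓ : ∀ n, MeasurableSet (s ∩ {ω | e (ℓ ω) n = true}))
    (h0 : ∀ a, ρ (s ∩ {ω | ℓ ω ≤ a}) = 0) : ρ s = 0 := by
  classical
  have hG : ∀ n, Measurable (fun ω => decide (ω ∈ s ∧ e (ℓ ω) n = true)) := by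
    intro n
    apply measurable_to_bool
    have : (fun ω => decide (ω ∈ s ∧ e (ℓ ω) n = true)) ⁻¹' {true} =
        s ∩ {ω | e (ℓ ω) n = true} := by
      ext ω; simp
    rw [this]
    exact hℓ n
  let T : Set (Ω × Ω) := {p | p.1 ∈ s ∧ p.2 ∈ s ∧ ℓ p.1 ≤ ℓ p.2}
  have hT : MeasurableSet T := by
    have h1 : T = (s ×ˢ s) ∩ ⋃ k : ℕ, ⋂ n : ℕ,
        {p : Ω × Ω | decide (p.1 ∈ s ∧ e (ℓ p.1) (0, n + 1) = true) =
          decide (p.2 ∈ s ∧ e (ℓ p.2) (k + 1, n) = true)} := by
      ext ⟨x, y⟩
      simp only [T, mem_ofPred_eq, mem_inter_iff, mem_prod, mem_iUnion, mem_iInter, le_iff_e]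
      constructor
      · rintro ⟨hx, hy, k, hk⟩
        refine ⟨⟨hx, hy⟩, k, fun n => ?_⟩
        simp [hx, hy, hk n]
      · rintro ⟨⟨hx, hy⟩, k, hk⟩
        refine ⟨hx, hy, k, fun n => ?_⟩
        have := hk n
        simpa [hx, hy] using this
    rw [h1]
    refine (hs.prod hs).inter (MeasurableSet.iUnion fun k => MeasurableSet.iInter fun n => ?_)
    exact measurableSet_eq_fun ((hG _).comp measurable_fst) ((hG _).comp measurable_snd)
  have h1 : (ρ.prod ρ) T = 0 := by
    rw [Measure.prod_apply_symm hT]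
    rw [lintegral_eq_zero_iff' (measurable_measure_prodMk_right hT).aemeasurable]
    refine Eventually.of_forall fun y => ?_
    refine measure_mono_null ?_ (h0 (ℓ y))
    rintro x ⟨hx, _, hxy⟩
    exact ⟨hx, hxy⟩
  have h2 : (ρ.prod ρ) T = ρ s * ρ s := by
    rw [Measure.prod_apply hT]
    have h3 : ∀ x, ρ (Prod.mk x ⁻¹' T) = s.indicator (fun _ => ρ s) x := by
      intro x
      by_cases hx : x ∈ s
      · rw [indicator_of_mem hx]
        apply le_antisymm
        · exact measure_mono fun y hy => hy.2.1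
        · have h4 : s ⊆ (Prod.mk x ⁻¹' T) ∪ (s ∩ {ω | ℓ ω ≤ ℓ x}) := by
            intro y hy
            rcases le_total (ℓ x) (ℓ y) with h | h
            · exact Or.inl ⟨hx, hy, h⟩
            · exact Or.inr ⟨hy, h⟩
          calc ρ s ≤ ρ ((Prod.mk x ⁻¹' T) ∪ (s ∩ {ω | ℓ ω ≤ ℓ x})) := measure_mono h4
            _ ≤ ρ (Prod.mk x ⁻¹' T) + ρ (s ∩ {ω | ℓ ω ≤ ℓ x}) := measure_union_le _ _
            _ = ρ (Prod.mk x ⁻¹' T) := by rw [h0, add_zero]
      · rw [indicator_of_notMem hx]
        refine measure_mono_null ?_ (measure_empty (μ := ρ))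
        rintro y ⟨hx', _⟩
        exact hx hx'
    simp_rw [h3]
    rw [lintegral_indicator hs, lintegral_const, Measure.restrict_apply_univ]
  rw [h1] at h2
  have := h2.symm
  rw [mul_self_eq_zero] at this
  exact this

end Pool.Agent.Helper90.Lmp
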