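import Pool.Agent.Helper90.Lmp.Morph

/-!
# The three processes and the span
-/

open Set Filter MeasureTheory Cardinal
open scoped ENNReal

namespace Pool.Agent.Helper90.Lmp

instance : Lined X := ⟨nd, fun _ _ _ h => nd_inj h⟩

instance : Lined (X × I) := ⟨fun b α => (nd b α, b α), fun _ _ _ h => nd_inj (congrArg Prod.fst h)⟩

/-- The first leg of the span. -/
def legF : MorData (X × I) X where
  π := Prod.fst
  θ _ u := u
  hπ _ _ := rfl
  hmeas _ := measurable_id
  hpres _ _ _ := rfl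
  hblk _ _ _ := rfl

/-- The second leg of the span. -/
noncomputable def legG : MorData (X × I) X where
  π := Prod.fst
  θ p u := flipK (e p.1.len) p.2 u
  hπ _ _ := rfl
  hmeas p := measurable_flipK _ _
  hpres p _ hE := lamK_preimage_flipK _ _ hE
  hblk b α u := by
    rw [blk_flipK]
    exact flipFun_same _ _ _

theorem mk_fun_le {A : Type} (hA : Countable A) {B : Type} (hB : #B ≤ 𝔠) : #(A → B) ≤ 𝔠 := by
  rw [mk_pi, prod_const, lift_id, lift_id, ← continuum_power_aleph0]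
  exact (power_le_power_right hB).trans
    (power_le_power_left continuum_ne_zero mk_le_aleph0)

theorem mk_I_le : #I ≤ 𝔠 := by
  rw [mk_I]
  exact aleph_one_le_continuum

theorem mk_sigma_le {B : I → Type} (hB : ∀ a, #(B a) ≤ 𝔠) : #(Σ a, B a) ≤ 𝔠 := by
  rw [mk_sigma]
  refine (sum_le_sum _ (fun _ => 𝔠) hB).trans ?_
  rw [sum_const, lift_id, lift_id]
  exact (mul_le_mul' mk_I_le le_rfl).trans continuum_mul_self.le

theorem mk_X_le : #X ≤ 𝔠 :=
  mk_sigma_le fun a => mk_fun_le (countable_Iio a).to_subtype mk_I_le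

theorem mk_K_le : #K ≤ 𝔠 := by
  have h1 : #(Σ a : I, (Iic a → Blk)) ≤ 𝔠 :=
    mk_sigma_le fun a => mk_fun_le (countable_Iic a).to_subtype (by simp)
  refine le_trans ?_ h1
  have h2 : ∀ u : K, ∃ β, ∀ a, β ≤ a → u.blk a = u.blk β := fun u => u.2
  choose f hf using h2
  refine mk_le_of_injective (f := fun u : K => (⟨f u, fun a => u.blk a⟩ : Σ a : I, (Iic a → Blk))) ?_
  intro u v h
  have h3 : f u = f v := congrArg Sigma.fst h
  have h4 : ∀ a, a ≤ f u → u.blk a = v.blk a := by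
    intro a ha
    have hfun : ∀ (x y : Σ a : I, (Iic a → Blk)), x = y → ∀ a (hx : a ≤ x.1) (hy : a ≤ y.1),
        x.2 ⟨a, hx⟩ = y.2 ⟨a, hy⟩ := by
      rintro x _ rfl a _ _
      rfl
    exact hfun _ _ h a ha (show a ≤ f v by rw [← h3]; exact ha)
  apply K.ext
  funext a
  rcases le_total a (f u) with ha | ha
  · exact h4 a ha
  · rw [hf u a ha, hf v a (show f v ≤ a by rw [← h3]; exact ha), h4 _ le_rfl, h3]

theorem mk_Pt_le : #(Pt (X × I)) ≤ 𝔠 := by
  have h1 : #(Pt (X × I)) ≤ #((X × I) × K) :=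
    mk_le_of_injective (f := fun w : Pt (X × I) => (w.z, w.u)) (by
      rintro ⟨z, u⟩ ⟨z', u'⟩ h
      simp only [Prod.mk.injEq] at h
      rw [h.1, h.2])
  refine h1.trans ?_
  rw [mk_prod, mk_prod, lift_id, lift_id, lift_id, lift_id, ← continuum_mul_self]
  refine mul_le_mul' ?_ mk_K_le
  rw [← continuum_mul_self]
  exact mul_le_mul' mk_X_le mk_I_le

instance : Nonempty K := ⟨⟨fun _ _ => false, ⟨Classical.arbitrary I, fun _ _ => rfl⟩⟩⟩

instance : Nonempty X := ⟨nd (fun _ => Classical.arbitrary I) (Classical.arbitrary I)⟩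

instance : Nonempty (Pt (X × I)) := ⟨⟨Classical.arbitrary _, Classical.arbitrary K⟩⟩

theorem exists_Phi : ∃ Φ : ℝ → Pt (X × I), ThickMap Φ := exists_thickMap _ mk_Pt_le

/-- The master map. -/
noncomputable def Phi : ℝ → Pt (X × I) := exists_Phi.choose

theorem thick_Phi : ThickMap Phi := exists_Phi.choose_spec

theorem thick_F : ThickMap (legF.F ∘ Phi) := by
  intro w E hE h0
  obtain ⟨y, hy, h⟩ := thick_Phi ⟨(w.z, Classical.arbitrary I), w.u⟩ E hE h0
  refine ⟨y, hy, ?_⟩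
  rw [Function.comp_apply, h]
  rfl

theorem thick_G : ThickMap (legG.F ∘ Phi) := by
  intro w E hE h0
  obtain ⟨y, hy, h⟩ := thick_Phi ⟨(w.z, Classical.arbitrary I),
    flipK (e w.z.len) (Classical.arbitrary I) w.u⟩ E hE h0
  refine ⟨y, hy, ?_⟩
  rw [Function.comp_apply, h]
  show Pt.mk w.z (flipK _ _ (flipK _ _ w.u)) = w
  rw [flipK_flipK]

/-- Bisimilar points are related by a flip. -/
theorem flip_of_mem {y : ℝ} : ((legF.F ∘ Phi) y).z = ((legG.F ∘ Phi) y).z ∧
    ∃ a, ((legG.F ∘ Phi) y).u = flipK (e ((legF.F ∘ Phi) y).z.len) a ((legF.F ∘ Phi) y).u :=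
  ⟨rfl, (Phi y).z.2, rfl⟩

end Pool.Agent.Helper90.Lmp
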