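import Mathlib

/-!
# Maps from the line all of whose fibres are thick, and the kernels they induce
-/

open Cardinal Set Filter MeasureTheory
open scoped ENNReal

namespace Pool.Agent.Helper90.Lmp

/-- Injective choice from a small family of large sets. -/
theorem exists_injective_choice {Q Y : Type} (A : Q → Set Y) (h : ∀ q, #Q ≤ #(A q)) :
    ∃ f : Q → Y, Function.Injective f ∧ ∀ q, f q ∈ A q := by
  classical
  obtain ⟨r, wo, hr⟩ := exists_ord_eq Q
  have hsmall : ∀ q : Q, #{p // r p q} < #Q := fun q => card_typein_lt (r := r) q hr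
  have hne : ∀ q : Q, ∀ g : (p : Q) → r p q → Y, ∃ y ∈ A q, ∀ p (hp : r p q), g p hp ≠ y := by
    intro q g
    by_contra hcon
    push Not at hcon
    have h1 : #(A q) ≤ #{p // r p q} := by
      choose g' hg' hgg' using hcon
      refine Cardinal.mk_le_of_surjective (f := fun p : {p // r p q} =>
        (if hp : g p.1 p.2 ∈ A q then (⟨g p.1 p.2, hp⟩ : A q) else
          Classical.choice (by
            have : #(A q) ≠ 0 := fun h0 => by
              have := h q
              rw [h0] at this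
              have h2 := (hsmall q).trans_le this
              exact absurd h2 (not_lt.2 zero_le)
            exact mk_ne_zero_iff.1 this))) ?_
      rintro ⟨y, hy⟩
      refine ⟨⟨g' y hy, hg' y hy⟩, ?_⟩
      have h3 := hgg' y hy
      simp only [h3, hy, dif_pos]
    exact absurd (h q) (not_le.2 (h1.trans_lt (hsmall q)))
  let F : (q : Q) → ((p : Q) → r p q → Y) → Y := fun q g => (hne q g).choose
  let f : Q → Y := wo.wf.fix F
  have hf : ∀ q, f q = F q (fun p _ => f p) := fun q => wo.wf.fix_eq F q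
  have hfA : ∀ q, f q ∈ A q := fun q => by
    rw [hf q]
    exact (hne q _).choose_spec.1
  have hfne : ∀ q p, r p q → f p ≠ f q := fun q p hp => by
    rw [hf q]
    exact (hne q (fun p _ => f p)).choose_spec.2 p hp
  refine ⟨f, fun p q hpq => ?_, hfA⟩
  rcases trichotomous_of r p q with h1 | h1 | h1
  · exact absurd hpq (hfne q p h1)
  · exact h1
  · exact absurd hpq.symm (hfne p q h1)

/-- Lebesgue measure on the unit interval. -/
noncomputable def P0 : Measure ℝ := volume.restrict (Icc 0 1)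

instance : IsProbabilityMeasure P0 := ⟨by
  rw [P0, Measure.restrict_apply_univ, Real.volume_Icc]
  simp⟩

instance : NullSingletonClass P0 := by unfold P0; infer_instance

instance : P0.InnerRegular := by unfold P0; infer_instance

theorem continuum_le_of_pos {E : Set ℝ} (hE : MeasurableSet E) (h : P0 E ≠ 0) : 𝔠 ≤ #E := by
  obtain ⟨C, hCE, hC, h0⟩ := hE.exists_lt_isCompact (μ := P0) (pos_iff_ne_zero.2 h)
  have hunc : ¬ C.Countable := fun hc => h0.ne' (hc.measure_zero P0)
  obtain ⟨f, hf, _, hinj⟩ := hC.isClosed.exists_nat_bool_injection_of_not_countable hunc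
  have h1 : #(ℕ → Bool) = 𝔠 := by simp
  rw [← h1]
  exact mk_le_of_injective (f := fun x => (⟨f x, hCE (hf (mem_range_self x))⟩ : E))
    fun x y hxy => hinj (congrArg Subtype.val hxy)

theorem mk_measurable_le : #{E : Set ℝ // MeasurableSet E} ≤ 𝔠 := by
  obtain ⟨b, hbc, hb⟩ := (inferInstance : MeasurableSpace.CountablyGenerated ℝ).isCountablyGenerated
  have h := MeasurableSpace.cardinal_measurableSet_le_continuum (α := ℝ) (s := b)
    ((le_aleph0_iff_set_countable.2 hbc).trans aleph0_le_continuum)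
  rw [← hb] at h
  exact h

/-- A map from the line all of whose fibres have full outer measure. -/
def ThickMap {W : Type} (φ : ℝ → W) : Prop :=
  ∀ w, ∀ E, MeasurableSet E → P0 E ≠ 0 → ∃ y ∈ E, φ y = w

theorem exists_thickMap (W : Type) [Nonempty W] (hW : #W ≤ 𝔠) : ∃ φ : ℝ → W, ThickMap φ := by
  classical
  let Q := {E : {E : Set ℝ // MeasurableSet E} // P0 E.1 ≠ 0} × W
  have hQ : #Q ≤ 𝔠 := by
    rw [mk_prod, lift_id, lift_id, ← continuum_mul_self]
    exact mul_le_mul' ((mk_subtype_le _).trans mk_measurable_le) hW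
  obtain ⟨f, hinj, hf⟩ := exists_injective_choice (Q := Q) (fun q => q.1.1.1)
    (fun q => hQ.trans (continuum_le_of_pos q.1.1.2 q.1.2))
  refine ⟨fun y => if h : ∃ q : Q, f q = y then h.choose.2 else Classical.arbitrary W,
    fun w E hE h0 => ?_⟩
  refine ⟨f (⟨⟨E, hE⟩, h0⟩, w), hf (⟨⟨E, hE⟩, h0⟩, w), ?_⟩
  have h : ∃ q : Q, f q = f (⟨⟨E, hE⟩, h0⟩, w) := ⟨_, rfl⟩
  simp only [dif_pos h]
  rw [hinj h.choose_spec]

theorem ThickMap.measure_inter {W : Type} {φ : ℝ → W} (h : ThickMap φ) (w : W) {B : Set ℝ}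
    (hB : MeasurableSet B) : P0 (B ∩ φ ⁻¹' {w}) = P0 B := by
  refine le_antisymm (measure_mono inter_subset_left) ?_
  set C := toMeasurable P0 (B ∩ φ ⁻¹' {w}) with hC
  have h1 : P0 C = P0 (B ∩ φ ⁻¹' {w}) := measure_toMeasurable _
  rw [← h1]
  have h2 : P0 (B \ C) = 0 := by
    by_contra h0
    obtain ⟨y, hy, hw⟩ := h w _ (hB.diff (measurableSet_toMeasurable _ _)) h0
    exact hy.2 (subset_toMeasurable _ _ ⟨hy.1, hw⟩)
  calc P0 B ≤ P0 (C ∪ (B \ C)) := measure_mono (by
        intro y hy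
        by_cases hyC : y ∈ C
        · exact Or.inl hyC
        · exact Or.inr ⟨hy, hyC⟩)
    _ ≤ P0 C + P0 (B \ C) := measure_union_le _ _
    _ = P0 C := by rw [h2, add_zero]

/-- The graph map of `φ`. -/
def gr {W : Type} (φ : ℝ → W) (y : ℝ) : W × ℝ := (φ y, y)

/-- The smallest space on the line containing the Borel sets and making `φ` measurable. -/
@[reducible]
def leafSpace {W : Type} [MeasurableSpace W] (φ : ℝ → W) : MeasurableSpace ℝ :=
  MeasurableSpace.comap (gr φ) inferInstance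

/-- The outer measure of the fibre of `φ` over `w`. -/
noncomputable def outF {W : Type} (φ : ℝ → W) (w : W) : OuterMeasure ℝ :=
  OuterMeasure.restrict (φ ⁻¹' {w}) P0.toOuterMeasure

theorem outF_apply {W : Type} (φ : ℝ → W) (w : W) (s : Set ℝ) :
    outF φ w s = P0 (s ∩ φ ⁻¹' {w}) := by
  rw [outF, OuterMeasure.restrict_apply]
  rfl

theorem inter_fibre {W : Type} (φ : ℝ → W) (w : W) (M : Set (W × ℝ)) :
    gr φ ⁻¹' M ∩ φ ⁻¹' {w} = Prod.mk w ⁻¹' M ∩ φ ⁻¹' {w} := by
  ext y
  simp only [mem_inter_iff, mem_preimage, mem_singleton_iff, gr]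
  constructor
  · rintro ⟨h1, h2⟩
    rw [h2] at h1
    exact ⟨h1, h2⟩
  · rintro ⟨h1, h2⟩
    rw [← h2] at h1
    exact ⟨h1, h2⟩

theorem leafSpace_le {W : Type} [MeasurableSpace W] (φ : ℝ → W) (w : W) :
    leafSpace φ ≤ (outF φ w).caratheodory := by
  rintro _ ⟨M, hM, rfl⟩
  show (outF φ w).IsCaratheodory _
  intro t
  rw [outF_apply, outF_apply, outF_apply]
  have hMw : MeasurableSet (Prod.mk w ⁻¹' M) := measurable_prodMk_left hM
  have h1 : t ∩ gr φ ⁻¹' M ∩ φ ⁻¹' {w} = (t ∩ φ ⁻¹' {w}) ∩ Prod.mk w ⁻¹' M := by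
    rw [inter_assoc, inter_fibre, inter_assoc, inter_comm (Prod.mk w ⁻¹' M)]
  have h2 : t \ gr φ ⁻¹' M ∩ φ ⁻¹' {w} = (t ∩ φ ⁻¹' {w}) \ Prod.mk w ⁻¹' M := by
    have := inter_fibre φ w Mᶜ
    rw [sdiff_eq, inter_assoc, ← preimage_compl, this, sdiff_eq, inter_assoc,
      inter_comm (Prod.mk w ⁻¹' Mᶜ), preimage_compl]
  rw [h1, h2]
  exact (measure_inter_add_sdiff _ hMw).symm

/-- The kernel measure of the fibre of `φ` over `w`. -/
noncomputable def kap {W : Type} [MeasurableSpace W] (φ : ℝ → W) (w : W) :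
    @Measure ℝ (leafSpace φ) :=
  @OuterMeasure.toMeasure ℝ (leafSpace φ) (outF φ w) (leafSpace_le φ w)

theorem kap_apply {W : Type} [MeasurableSpace W] {φ : ℝ → W} (h : ThickMap φ) (w : W)
    {M : Set (W × ℝ)} (hM : MeasurableSet M) : kap φ w (gr φ ⁻¹' M) = P0 (Prod.mk w ⁻¹' M) := by
  have h1 : MeasurableSet[leafSpace φ] (gr φ ⁻¹' M) := ⟨M, hM, rfl⟩
  rw [kap, @toMeasure_apply ℝ (leafSpace φ) _ _ _ h1, outF_apply, inter_fibre,
    h.measure_inter w (measurable_prodMk_left hM)]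

theorem kap_univ {W : Type} [MeasurableSpace W] {φ : ℝ → W} (h : ThickMap φ) (w : W) :
    kap φ w Set.univ = 1 := by
  have h1 := kap_apply h w (M := Set.univ) MeasurableSet.univ
  rw [preimage_univ, preimage_univ] at h1
  rw [h1, measure_univ]

theorem kap_fibre {W : Type} [MeasurableSpace W] {φ : ℝ → W} (h : ThickMap φ) (w : W)
    (hw : MeasurableSet ({w} : Set W)) : kap φ w (φ ⁻¹' {w}) = 1 := by
  have h1 : φ ⁻¹' {w} = gr φ ⁻¹' (Prod.fst ⁻¹' {w}) := rfl
  rw [h1, kap_apply h w (measurable_fst hw)]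
  have h2 : Prod.mk w ⁻¹' (Prod.fst ⁻¹' {w} : Set (W × ℝ)) = Set.univ := by
    ext y; simp
  rw [h2, measure_univ]

theorem measurable_kap {W : Type} [MeasurableSpace W] {φ : ℝ → W} (h : ThickMap φ) {E : Set ℝ}
    (hE : MeasurableSet[leafSpace φ] E) : Measurable (fun w => kap φ w E) := by
  obtain ⟨M, hM, rfl⟩ := hE
  simp only [kap_apply h _ hM]
  exact measurable_measure_prodMk_left hM

end Pool.Agent.Helper90.Lmp
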