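import Pool.Agent.Helper90.Lmp.Kspace
import Pool.Agent.Helper90.Lmp.Thick
import Pool.Agent.Helper90.Lmp.Defs

/-!
# The processes of the counterexample
-/

open Set Filter MeasureTheory
open scoped ENNReal

namespace Pool.Agent.Helper90.Lmp

/-- A set of nodes together with a sequence of nodes on each line. -/
class Lined (Z : Type) where
  j : Line → I → Z
  inj : ∀ b α α', j b α = j b α' → α = α'

open Lined

variable {Z Z' : Type} [Lined Z] [Lined Z']

/-- Sets of nodes whose indicator is eventually constant along each line, with the same constant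
for almost all lines. -/
@[reducible]
def nodeSpace (Z : Type) [Lined Z] : MeasurableSpace Z where
  MeasurableSet' E := (∀ b, (∀ᶠ α in atTop, j b α ∈ E) ∨ ∀ᶠ α in atTop, j b α ∉ E) ∧
    ((∀ᶠ b in lineFilter, ∀ᶠ α in atTop, j b α ∈ E) ∨
      ∀ᶠ b in lineFilter, ∀ᶠ α in atTop, j b α ∉ E)
  measurableSet_empty := ⟨fun _ => Or.inr (by simp), Or.inr (by simp)⟩
  measurableSet_compl E h := by
    refine ⟨fun b => ?_, ?_⟩
    · simpa [or_comm] using h.1 b
    · simpa [or_comm] using h.2
  measurableSet_iUnion E h := by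
    refine ⟨fun b => ?_, ?_⟩
    · by_cases h1 : ∃ n, ∀ᶠ α in atTop, j b α ∈ E n
      · obtain ⟨n, hn⟩ := h1
        exact Or.inl (hn.mono fun α hα => mem_iUnion.2 ⟨n, hα⟩)
      · have h2 : ∀ n, ∀ᶠ α in atTop, j b α ∉ E n := fun n => ((h n).1 b).resolve_left
          fun h3 => h1 ⟨n, h3⟩
        refine Or.inr ((eventually_countable_forall.2 h2).mono fun α hα => ?_)
        simpa using hα
    · by_cases h1 : ∃ n, ∀ᶠ b in lineFilter, ∀ᶠ α in atTop, j b α ∈ E n
      · obtain ⟨n, hn⟩ := h1
        exact Or.inl (hn.mono fun b hb => hb.mono fun α hα => mem_iUnion.2 ⟨n, hα⟩)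
      · have h2 : ∀ n, ∀ᶠ b in lineFilter, ∀ᶠ α in atTop, j b α ∉ E n := fun n =>
          ((h n).2).resolve_left fun h3 => h1 ⟨n, h3⟩
        refine Or.inr ((eventually_countable_forall.2 h2).mono fun b hb => ?_)
        refine (eventually_countable_forall.2 hb).mono fun α hα => ?_
        simpa using hα

/-- Functions which are eventually constant along lines are measurable. -/
theorem measurable_node {β : Type*} [MeasurableSpace β] {h : Z → β}
    (h1 : ∀ b, ∃ c, ∀ᶠ α in atTop, h (j b α) = c)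
    (h2 : ∃ c, ∀ᶠ b in lineFilter, ∀ᶠ α in atTop, h (j b α) = c) :
    Measurable[nodeSpace Z] h := by
  intro C _
  refine ⟨fun b => ?_, ?_⟩
  · obtain ⟨c, hc⟩ := h1 b
    by_cases hC : c ∈ C
    · exact Or.inl (hc.mono fun α hα => by rw [mem_preimage, hα]; exact hC)
    · exact Or.inr (hc.mono fun α hα => by rw [mem_preimage, hα]; exact hC)
  · obtain ⟨c, hc⟩ := h2
    by_cases hC : c ∈ C
    · exact Or.inl (hc.mono fun b hb => hb.mono fun α hα => by rw [mem_preimage, hα]; exact hC)
    · exact Or.inr (hc.mono fun b hb => hb.mono fun α hα => by rw [mem_preimage, hα]; exact hC)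

/-- Points: a node and a point of `K`. -/
structure Pt (Z : Type) where
  z : Z
  u : K

/-- The structured space of points. -/
noncomputable instance : MeasurableSpace (Pt Z) where
  MeasurableSet' E := (∀ z, MeasurableSet {u : K | Pt.mk z u ∈ E}) ∧
    (∀ b, ∃ B : Set Blk, MeasurableSet B ∧
      ∀ᶠ α in atTop, ∀ u : K, (Pt.mk (j b α) u ∈ E ↔ u.blk (b α) ∈ B)) ∧
    ∃ B : Set Blk, MeasurableSet B ∧
      ∀ᶠ b in lineFilter, ∀ᶠ α in atTop, ∀ u : K, (Pt.mk (j b α) u ∈ E ↔ u.blk (b α) ∈ B)
  measurableSet_empty := ⟨fun _ => MeasurableSet.empty,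
    fun _ => ⟨∅, MeasurableSet.empty, by simp⟩, ⟨∅, MeasurableSet.empty, by simp⟩⟩
  measurableSet_compl E h := by
    refine ⟨fun z => (h.1 z).compl, fun b => ?_, ?_⟩
    · obtain ⟨B, hB, h⟩ := h.2.1 b
      exact ⟨Bᶜ, hB.compl, h.mono fun α hα u => not_congr (hα u)⟩
    · obtain ⟨B, hB, h⟩ := h.2.2
      exact ⟨Bᶜ, hB.compl, h.mono fun b hb => hb.mono fun α hα u => not_congr (hα u)⟩
  measurableSet_iUnion E h := by
    refine ⟨fun z => ?_, fun b => ?_, ?_⟩
    · have : {u : K | Pt.mk z u ∈ ⋃ n, E n} = ⋃ n, {u : K | Pt.mk z u ∈ E n} := by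
        ext u; simp
      rw [this]
      exact MeasurableSet.iUnion fun n => (h n).1 z
    · choose B hB hE using fun n => (h n).2.1 b
      refine ⟨⋃ n, B n, MeasurableSet.iUnion hB, ?_⟩
      refine (eventually_countable_forall.2 hE).mono fun α hα u => ?_
      rw [mem_iUnion, mem_iUnion]
      exact exists_congr fun n => hα n u
    · choose B hB hE using fun n => (h n).2.2
      refine ⟨⋃ n, B n, MeasurableSet.iUnion hB, ?_⟩
      refine (eventually_countable_forall.2 hE).mono fun b hb => ?_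
      refine (eventually_countable_forall.2 hb).mono fun α hα u => ?_
      rw [mem_iUnion, mem_iUnion]
      exact exists_congr fun n => hα n u

theorem measurableSet_Pt {E : Set (Pt Z)} : MeasurableSet E ↔
    (∀ z, MeasurableSet {u : K | Pt.mk z u ∈ E}) ∧
    (∀ b, ∃ B : Set Blk, MeasurableSet B ∧
      ∀ᶠ α in atTop, ∀ u : K, (Pt.mk (j b α) u ∈ E ↔ u.blk (b α) ∈ B)) ∧
    ∃ B : Set Blk, MeasurableSet B ∧
      ∀ᶠ b in lineFilter, ∀ᶠ α in atTop, ∀ u : K, (Pt.mk (j b α) u ∈ E ↔ u.blk (b α) ∈ B) :=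
  Iff.rfl

theorem eventually_ne_node (b : Line) (z : Z) : ∀ᶠ α in atTop, j b α ≠ z := by
  by_cases h : ∃ α, j b α = z
  · obtain ⟨α, rfl⟩ := h
    filter_upwards [eventually_gt α] with β hβ h
    exact hβ.ne' (inj b β α h)
  · push Not at h
    exact Eventually.of_forall h

/-- Measurable subsets of a single fibre are measurable. -/
theorem measurableSet_fibre (z : Z) {s : Set K} (hs : MeasurableSet s) :
    MeasurableSet ({w : Pt Z | w.z = z ∧ w.u ∈ s}) := by
  have h0 : ∀ b, ∀ᶠ α in atTop, ∀ u : K,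
      (Pt.mk (j b α) u ∈ {w : Pt Z | w.z = z ∧ w.u ∈ s} ↔ u.blk (b α) ∈ (∅ : Set Blk)) := by
    intro b
    filter_upwards [eventually_ne_node b z] with α hα u
    simp only [mem_empty_iff_false, iff_false]
    exact fun h => hα h.1
  refine measurableSet_Pt.2 ⟨fun z' => ?_, fun b => ⟨∅, MeasurableSet.empty, h0 b⟩,
    ⟨∅, MeasurableSet.empty, Eventually.of_forall h0⟩⟩
  by_cases hz : z' = z
  · subst hz
    convert hs using 1
    ext u; simp
  · convert MeasurableSet.empty using 1
    ext u; simp [hz]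

theorem measurableSet_singleton_Pt (w : Pt Z) : MeasurableSet ({w} : Set (Pt Z)) := by
  convert measurableSet_fibre w.z (measurableSet_singleton_K w.u) using 1
  ext ⟨z, u⟩
  obtain ⟨z', u'⟩ := w
  simp

/-- The states. -/
inductive St (Z : Type) (φ : ℝ → Pt Z) : Type
  | root : St Z φ
  | line (b : Line) : St Z φ
  | node (z : Z) : St Z φ
  | pt (w : Pt Z) : St Z φ
  | leaf (y : ℝ) : St Z φ

noncomputable instance {φ : ℝ → Pt Z} : MeasurableSpace (St Z φ) :=
  (((filterSpace lineFilter).map St.line ⊓ (nodeSpace Z).map St.node) ⊓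
    (inferInstance : MeasurableSpace (Pt Z)).map St.pt) ⊓ (leafSpace φ).map St.leaf

theorem measurableSet_St {φ : ℝ → Pt Z} {E : Set (St Z φ)} : MeasurableSet E ↔
    (((MeasurableSet[filterSpace lineFilter] (St.line ⁻¹' E) ∧
      MeasurableSet[nodeSpace Z] (St.node ⁻¹' E)) ∧ MeasurableSet (St.pt ⁻¹' E)) ∧
      MeasurableSet[leafSpace φ] (St.leaf ⁻¹' E)) :=
  MeasurableSpace.measurableSet_inf.trans (and_congr_left'
    (MeasurableSpace.measurableSet_inf.trans (and_congr_left' MeasurableSpace.measurableSet_inf)))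

theorem measurable_St {φ : ℝ → Pt Z} {β : Type*} [MeasurableSpace β] {h : St Z φ → β}
    (h1 : Measurable[filterSpace lineFilter] fun b => h (St.line b))
    (h2 : Measurable[nodeSpace Z] fun z => h (St.node z))
    (h3 : Measurable fun w => h (St.pt w))
    (h4 : Measurable[leafSpace φ] fun y => h (St.leaf y)) : Measurable h := fun _ hC =>
  measurableSet_St.2 ⟨⟨⟨h1 hC, h2 hC⟩, h3 hC⟩, h4 hC⟩

/-- The masses of the leaves. -/
noncomputable def gl (y : ℝ) : ℝ≥0∞ := ENNReal.ofReal (1 / (6 + Real.exp y))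

theorem gl_lt (y : ℝ) : gl y < 4⁻¹ := by
  unfold gl
  have h1 : (4⁻¹ : ℝ≥0∞) = ENNReal.ofReal (1 / 4) := by
    rw [one_div, ENNReal.ofReal_inv_of_pos (by norm_num)]
    simp
  rw [h1, ENNReal.ofReal_lt_ofReal_iff (by norm_num)]
  have := Real.exp_pos y
  apply one_div_lt_one_div_of_lt (by norm_num)
  linarith

theorem gl_inj {y y' : ℝ} (h : gl y = gl y') : y = y' := by
  unfold gl at h
  have h0 := Real.exp_pos y
  have h0' := Real.exp_pos y'
  rw [ENNReal.ofReal_eq_ofReal_iff (by positivity) (by positivity)] at h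
  rw [one_div, one_div, inv_inj] at h
  exact Real.exp_injective (by linarith)

theorem measurable_gl : Measurable gl := by
  unfold gl
  fun_prop

theorem measurable_leafSpace {W : Type} {β : Type*} [MeasurableSpace W] [MeasurableSpace β]
    {φ : ℝ → W}
    {f : ℝ → β} (hf : Measurable f) : Measurable[leafSpace φ] f :=
  fun _ hs => ⟨Prod.snd ⁻¹' (f ⁻¹' _), measurable_snd (hf hs), rfl⟩

/-- The transition measures. -/
noncomputable def tr {φ : ℝ → Pt Z} : St Z φ → Measure (St Z φ)
  | St.root => @Measure.map _ _ (filterSpace lineFilter) _ St.line (filterMeasure lineFilter)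
  | St.line b => (2⁻¹ : ℝ≥0∞) • @Measure.map _ _ (filterSpace atTop) _
      (fun α => St.node (j b α)) (filterMeasure atTop)
  | St.node z => (3⁻¹ : ℝ≥0∞) • Measure.map (fun u => St.pt ⟨z, u⟩) lamK
  | St.pt w => (4⁻¹ : ℝ≥0∞) • @Measure.map _ _ (leafSpace φ) _ St.leaf (kap φ w)
  | St.leaf y => gl y • Measure.dirac (St.leaf y)

section apply

variable {φ : ℝ → Pt Z} {E : Set (St Z φ)}

theorem measurable_line : Measurable[filterSpace lineFilter] (St.line : Line → St Z φ) :=
  fun _ hE => (measurableSet_St.1 hE).1.1.1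

theorem measurable_nodeMap : Measurable[nodeSpace Z] (St.node : Z → St Z φ) :=
  fun _ hE => (measurableSet_St.1 hE).1.1.2

theorem measurable_pt : Measurable (St.pt : Pt Z → St Z φ) :=
  fun _ hE => (measurableSet_St.1 hE).1.2

theorem measurable_leaf : Measurable[leafSpace φ] (St.leaf : ℝ → St Z φ) :=
  fun _ hE => (measurableSet_St.1 hE).2

theorem measurable_j (b : Line) :
    Measurable[filterSpace atTop] (fun α => (St.node (j b α) : St Z φ)) := fun _ hE =>
  (measurableSet_St.1 hE).1.1.2.1 b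

theorem measurable_mkPt (z : Z) : Measurable (fun u => Pt.mk z u) := fun _ hE =>
  (measurableSet_Pt.1 hE).1 z

theorem tr_root (hE : MeasurableSet E) :
    tr (St.root : St Z φ) E = filterMeasure lineFilter (St.line ⁻¹' E) := by
  let _ := filterSpace lineFilter
  exact Measure.map_apply measurable_line hE

theorem tr_line (b : Line) (hE : MeasurableSet E) :
    tr (St.line b : St Z φ) E = 2⁻¹ * filterMeasure atTop {α | St.node (j b α) ∈ E} := by
  let _ := filterSpace (atTop : Filter I)
  show ((2⁻¹ : ℝ≥0∞) • Measure.map (fun α => St.node (j b α)) (filterMeasure atTop)) E = _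
  rw [Measure.smul_apply, Measure.map_apply (measurable_j b) hE]
  rfl

theorem tr_node (z : Z) (hE : MeasurableSet E) :
    tr (St.node z : St Z φ) E = 3⁻¹ * lamK {u | St.pt ⟨z, u⟩ ∈ E} := by
  have h : Measurable (fun u : K => (St.pt ⟨z, u⟩ : St Z φ)) :=
    measurable_pt.comp (measurable_mkPt z)
  show ((3⁻¹ : ℝ≥0∞) • Measure.map (fun u => St.pt ⟨z, u⟩) lamK) E = _
  rw [Measure.smul_apply, Measure.map_apply h hE]
  rfl

theorem tr_pt (w : Pt Z) (hE : MeasurableSet E) :
    tr (St.pt w : St Z φ) E = 4⁻¹ * kap φ w (St.leaf ⁻¹' E) := by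
  let _ := leafSpace φ
  show ((4⁻¹ : ℝ≥0∞) • Measure.map St.leaf (kap φ w)) E = _
  rw [Measure.smul_apply, Measure.map_apply measurable_leaf hE]
  rfl

theorem tr_leaf (y : ℝ) (hE : MeasurableSet E) :
    tr (St.leaf y : St Z φ) E = gl y * E.indicator 1 (St.leaf y) := by
  show (gl y • Measure.dirac (St.leaf y)) E = _
  rw [Measure.smul_apply, Measure.dirac_apply' _ hE]
  rfl

end apply

/-- The total masses of the states. -/
noncomputable def mass {φ : ℝ → Pt Z} : St Z φ → ℝ≥0∞
  | St.root => 1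
  | St.line _ => 2⁻¹
  | St.node _ => 3⁻¹
  | St.pt _ => 4⁻¹
  | St.leaf y => gl y

theorem tr_univ {φ : ℝ → Pt Z} (hφ : ThickMap φ) (s : St Z φ) : tr s univ = mass s := by
  cases s with
  | root => rw [tr_root MeasurableSet.univ, preimage_univ, filterMeasure_univ]; rfl
  | line b =>
    rw [tr_line b MeasurableSet.univ]
    have : {α : I | (St.node (j b α) : St Z φ) ∈ (univ : Set (St Z φ))} = univ := by ext; simp
    rw [this, filterMeasure_univ, mul_one]
    rfl
  | node z =>
    rw [tr_node z MeasurableSet.univ]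
    have : {u : K | (St.pt ⟨z, u⟩ : St Z φ) ∈ (univ : Set (St Z φ))} = univ := by ext; simp
    rw [this, measure_univ, mul_one]
    rfl
  | pt w => rw [tr_pt w MeasurableSet.univ, preimage_univ, kap_univ hφ, mul_one]; rfl
  | leaf y => rw [tr_leaf y MeasurableSet.univ]; simp [mass]

theorem measurable_tr {φ : ℝ → Pt Z} (hφ : ThickMap φ) :
    Measurable (tr : St Z φ → Measure (St Z φ)) := by
  refine Measure.measurable_of_measurable_coe _ fun E hE => ?_
  have hE' := measurableSet_St.1 hE
  refine measurable_St ?_ ?_ ?_ ?_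
  · have h1 : ∀ b : Line, tr (St.line b : St Z φ) E =
        2⁻¹ * filterMeasure atTop {α | St.node (j b α) ∈ E} := fun b => tr_line b hE
    simp only [h1]
    rcases hE'.1.1.2.2 with h | h
    · intro C _
      by_cases hC : (2⁻¹ : ℝ≥0∞) * 1 ∈ C
      · exact Or.inl (h.mono fun b hb => by
          show 2⁻¹ * filterMeasure atTop {α | St.node (j b α) ∈ E} ∈ C
          have hb' : {α | St.node (j b α) ∈ E} ∈ (atTop : Filter I) := hb
          rw [filterMeasure_of_mem hb']; exact hC)
      · exact Or.inr (h.mono fun b hb => by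
          show ¬ (2⁻¹ * filterMeasure atTop {α | St.node (j b α) ∈ E} ∈ C)
          have hb' : {α | St.node (j b α) ∈ E} ∈ (atTop : Filter I) := hb
          rw [filterMeasure_of_mem hb']; exact hC)
    · intro C _
      by_cases hC : (2⁻¹ : ℝ≥0∞) * 0 ∈ C
      · exact Or.inl (h.mono fun b hb => by
          show 2⁻¹ * filterMeasure atTop {α | St.node (j b α) ∈ E} ∈ C
          have hb' : {α | St.node (j b α) ∈ E}ᶜ ∈ (atTop : Filter I) := hb
          rw [filterMeasure_of_compl_mem hb']; exact hC)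
      · exact Or.inr (h.mono fun b hb => by
          show ¬ (2⁻¹ * filterMeasure atTop {α | St.node (j b α) ∈ E} ∈ C)
          have hb' : {α | St.node (j b α) ∈ E}ᶜ ∈ (atTop : Filter I) := hb
          rw [filterMeasure_of_compl_mem hb']; exact hC)
  · have h1 : ∀ z : Z, tr (St.node z : St Z φ) E = 3⁻¹ * lamK {u | St.pt ⟨z, u⟩ ∈ E} :=
      fun z => tr_node z hE
    simp only [h1]
    have h2 := measurableSet_Pt.1 hE'.1.2
    refine measurable_node (fun b => ?_) ?_
    · obtain ⟨B, hB, h⟩ := h2.2.1 b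
      refine ⟨3⁻¹ * lam0 B, h.mono fun α hα => ?_⟩
      rw [← lamK_blk (b α) hB]
      congr 2
      ext u
      exact hα u
    · obtain ⟨B, hB, h⟩ := h2.2.2
      refine ⟨3⁻¹ * lam0 B, h.mono fun b hb => hb.mono fun α hα => ?_⟩
      rw [← lamK_blk (b α) hB]
      congr 2
      ext u
      exact hα u
  · have h1 : ∀ w : Pt Z, tr (St.pt w : St Z φ) E = 4⁻¹ * kap φ w (St.leaf ⁻¹' E) :=
      fun w => tr_pt w hE
    simp only [h1]
    exact (measurable_kap hφ hE'.2).const_mul _
  · have h1 : ∀ y : ℝ, tr (St.leaf y : St Z φ) E = gl y * E.indicator 1 (St.leaf y) :=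
      fun y => tr_leaf y hE
    simp only [h1]
    have h2 : Measurable[leafSpace φ] (fun y : ℝ => gl y) := measurable_leafSpace measurable_gl
    have h3 : Measurable[leafSpace φ] (fun y : ℝ => E.indicator (1 : St Z φ → ℝ≥0∞) (St.leaf y)) :=
      (measurable_one.indicator hE).comp measurable_leaf
    exact Measurable.mul (m := leafSpace φ) h2 h3

open Classical in
/-- The process: label `a₀` has the transition measures above, the other labels are idle. -/
noncomputable def sys {L : Type*} (a₀ : L) {φ : ℝ → Pt Z} (hφ : ThickMap φ) : LMP L (St Z φ) where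
  τ a := if a = a₀ then ⟨tr, measurable_tr hφ⟩ else 0
  le_one a s := by
    by_cases h : a = a₀
    · rw [if_pos h]
      show tr s univ ≤ 1
      rw [tr_univ hφ]
      cases s with
      | root => exact le_rfl
      | line b => exact ENNReal.inv_le_one.2 (by norm_num)
      | node z => exact ENNReal.inv_le_one.2 (by norm_num)
      | pt w => exact ENNReal.inv_le_one.2 (by norm_num)
      | leaf y => exact (gl_lt y).le.trans (ENNReal.inv_le_one.2 (by norm_num))
    · rw [if_neg h]
      simp

theorem sys_self {L : Type*} (a₀ : L) {φ : ℝ → Pt Z} (hφ : ThickMap φ) (s : St Z φ) :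
    (sys a₀ hφ).τ a₀ s = tr s := by
  unfold sys
  simp only [if_pos]
  rfl

theorem sys_ne {L : Type*} {a a₀ : L} (h : a ≠ a₀) {φ : ℝ → Pt Z} (hφ : ThickMap φ)
    (s : St Z φ) : (sys a₀ hφ).τ a s = 0 := by
  unfold sys
  simp only [if_neg h]
  rfl

end Pool.Agent.Helper90.Lmp
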