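import Pool.Agent.Helper90.Lmp.Omega1
import Pool.Agent.Helper90.Lmp.FilterMeasure

/-!
# The tree of countable sequences of countable ordinals, and the evasion filter on its branches
-/

open Set Filter MeasureTheory

namespace Pool.Agent.Helper90.Lmp

/-- Lines are functions from `ω₁` to `ω₁`. -/
abbrev Line : Type := I → I

/-- Nodes are sequences of countable length. -/
def X : Type := Σ α : I, (Iio α → I)

/-- The length of a node. -/
def X.len (x : X) : I := x.1

/-- The node of length `α` on the line `b`. -/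
def nd (b : Line) (α : I) : X := ⟨α, fun β => b β⟩

@[simp] theorem len_nd (b : Line) (α : I) : (nd b α).len = α := rfl

theorem nd_eq_iff {b b' : Line} {α α' : I} :
    nd b α = nd b' α' ↔ α = α' ∧ ∀ β < α, b β = b' β := by
  constructor
  · intro h
    have h1 : α = α' := congrArg X.len h
    subst h1
    refine ⟨rfl, fun β hβ => ?_⟩
    have h2 := eq_of_heq (Sigma.mk.inj_iff.1 h).2
    exact congrFun h2 ⟨β, hβ⟩
  · rintro ⟨rfl, h⟩
    unfold nd
    congr 1
    funext β
    exact h β.1 β.2

theorem nd_inj {b : Line} {α α' : I} (h : nd b α = nd b α') : α = α' := (nd_eq_iff.1 h).1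

/-- The lines evading `s`. -/
def Ev (s : X → I) : Set Line := {b | ∀ α, s (nd b α) < b α}

/-- A line evading `s`. -/
noncomputable def evade (s : X → I) : Line :=
  (wellFounded_lt (α := I)).fix
    fun α rec => (exists_gt (s ⟨α, fun β => rec β.1 β.2⟩)).choose

theorem evade_mem (s : X → I) : evade s ∈ Ev s := by
  intro α
  have h : evade s α = (exists_gt (s (nd (evade s) α))).choose := by
    unfold evade
    rw [WellFounded.fix_eq]
    rfl
  rw [h]
  exact (exists_gt (s (nd (evade s) α))).choose_spec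

/-- The evasion filter. -/
def lineFilter : Filter Line where
  sets := {A | ∃ s, Ev s ⊆ A}
  univ_sets := ⟨fun _ => Classical.arbitrary I, subset_univ _⟩
  sets_of_superset := fun ⟨s, hs⟩ h => ⟨s, hs.trans h⟩
  inter_sets := fun ⟨s, hs⟩ ⟨t, ht⟩ => ⟨fun x => max (s x) (t x), fun b hb =>
    ⟨hs fun α => (le_max_left _ _).trans_lt (hb α), ht fun α => (le_max_right _ _).trans_lt (hb α)⟩⟩

theorem mem_lineFilter {A : Set Line} : A ∈ lineFilter ↔ ∃ s, Ev s ⊆ A := Iff.rfl

instance : NeBot lineFilter := by
  rw [neBot_iff]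
  intro h
  have h1 : (∅ : Set Line) ∈ lineFilter := by rw [h]; exact mem_bot
  obtain ⟨s, hs⟩ := mem_lineFilter.1 h1
  exact hs (evade_mem s)

instance : CountableInterFilter lineFilter := ⟨fun S hS h => by
  have h1 : ∀ A ∈ S, ∃ s, Ev s ⊆ A := h
  choose! f hf using h1
  have h2 : ∀ x : X, ∃ β : I, ∀ A ∈ S, f A x < β := fun x => by
    obtain ⟨β, hβ⟩ := exists_bound (hS.image fun A => f A x)
    exact ⟨β, fun A hA => hβ _ (mem_image_of_mem _ hA)⟩
  choose g hg using h2
  refine mem_lineFilter.2 ⟨g, fun b hb => mem_sInter.2 fun A hA => hf A hA fun α => ?_⟩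
  exact (hg _ A hA).trans (hb α)⟩

/-- Almost every line is different from a given line. -/
theorem eventually_ne (b : Line) : ∀ᶠ b' in lineFilter, b' ≠ b := by
  refine mem_lineFilter.2 ⟨fun x => b x.len, fun b' hb' h => ?_⟩
  have := hb' (Classical.arbitrary I)
  rw [h] at this
  exact lt_irrefl _ this

/-- The set of nodes on a line. -/
def onLine (b : Line) : Set X := range (nd b)

theorem nd_mem_onLine (b : Line) (α : I) : nd b α ∈ onLine b := mem_range_self α

theorem eventually_notMem_onLine {b b' : Line} (h : b' ≠ b) :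
    ∀ᶠ α in atTop, nd b' α ∉ onLine b := by
  obtain ⟨β, hβ⟩ := Function.ne_iff.1 h
  filter_upwards [eventually_gt β] with α hα
  rintro ⟨α', h'⟩
  obtain ⟨h1, h2⟩ := nd_eq_iff.1 h'
  subst h1
  exact hβ (h2 β hα).symm

end Pool.Agent.Helper90.Lmp
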